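import Mathlib

/-!
Selberg upper bound sieve with crude weights.
-/

open Finset BoundingSieve ArithmeticFunction
open scoped ArithmeticFunction.Moebius ArithmeticFunction.zeta

namespace Pool.Agent.H6

noncomputable section

/-- sum of the Moebius function over the divisors between `l` and `l'` -/
theorem sum_moebius_between {P l l' : ℕ} (hP : Squarefree P) (hl' : l' ∣ P) :
    (∑ d ∈ P.divisors, if l ∣ d ∧ d ∣ l' then (μ d : ℝ) else 0) = if l = l' then (μ l : ℝ) else 0 := by
  have hP0 : P ≠ 0 := hP.ne_zero
  have hl'0 : l' ≠ 0 := ne_zero_of_dvd_ne_zero hP0 hl'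
  have hl'sq : Squarefree l' := hP.squarefree_of_dvd hl'
  by_cases hll : l ∣ l'
  · obtain ⟨c, rfl⟩ := hll
    have hc0 : c ≠ 0 := right_ne_zero_of_mul hl'0
    have hl0 : l ≠ 0 := left_ne_zero_of_mul hl'0
    have hcop : Nat.Coprime l c := Nat.coprime_of_squarefree_mul hl'sq
    have h1 : (∑ d ∈ P.divisors, if l ∣ d ∧ d ∣ l * c then (μ d : ℝ) else 0)
        = ∑ e ∈ c.divisors, (μ (l * e) : ℝ) := by
      rw [← Finset.sum_filter]
      symm
      apply Finset.sum_bij (fun e _ => l * e)
      · intro e he
        rw [Nat.mem_divisors] at he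
        rw [Finset.mem_filter, Nat.mem_divisors]
        exact ⟨⟨(Nat.mul_dvd_mul_left l he.1).trans hl', hP0⟩, dvd_mul_right _ _,
          Nat.mul_dvd_mul_left l he.1⟩
      · intro a _ b _ hab
        exact Nat.eq_of_mul_eq_mul_left (Nat.pos_of_ne_zero hl0) hab
      · intro d hd
        rw [Finset.mem_filter, Nat.mem_divisors] at hd
        obtain ⟨⟨hdP, _⟩, ⟨e, rfl⟩, hdc⟩ := hd
        refine ⟨e, ?_, rfl⟩
        rw [Nat.mem_divisors]
        exact ⟨(Nat.mul_dvd_mul_iff_left (Nat.pos_of_ne_zero hl0)).mp hdc, hc0⟩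
      · intro e _
        rfl
    rw [h1]
    have h2 : ∀ e ∈ c.divisors, (μ (l * e) : ℝ) = (μ l : ℝ) * (μ e : ℝ) := by
      intro e he
      rw [Nat.mem_divisors] at he
      have : Nat.Coprime l e := Nat.Coprime.coprime_dvd_right he.1 hcop
      rw [isMultiplicative_moebius.map_mul_of_coprime this]
      push_cast
      ring
    rw [Finset.sum_congr rfl h2, ← Finset.mul_sum]
    have h3 : (∑ e ∈ c.divisors, (μ e : ℝ)) = if c = 1 then 1 else 0 := by
      have := congrArg (fun f : ArithmeticFunction ℤ => f c) moebius_mul_coe_zeta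
      simp only [coe_mul_zeta_apply, one_apply] at this
      have h4 : ((∑ e ∈ c.divisors, μ e : ℤ) : ℝ) = ((if c = 1 then 1 else 0 : ℤ) : ℝ) := by
        exact_mod_cast this
      push_cast at h4
      simpa using h4
    rw [h3]
    by_cases hc1 : c = 1
    · subst hc1; simp
    · have : l ≠ l * c := by
        intro h
        apply hc1
        have : l * 1 = l * c := by simpa using h
        exact (Nat.eq_of_mul_eq_mul_left (Nat.pos_of_ne_zero hl0) this).symm
      simp [hc1, this]
  · have hne : l ≠ l' := by
      rintro rfl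
      exact hll dvd_rfl
    rw [if_neg hne]
    apply Finset.sum_eq_zero
    intro d _
    rw [if_neg]
    rintro ⟨h1, h2⟩
    exact hll (h1.trans h2)

variable (s : BoundingSieve) (D : ℕ)

/-- truncated sum of the Selberg terms -/
def SS : ℝ := ∑ l ∈ s.prodPrimes.divisors, if l ≤ D then s.selbergTerms l else 0

theorem SS_nonneg : 0 ≤ SS s D := by
  unfold SS
  apply Finset.sum_nonneg
  intro l hl
  split_ifs
  · exact (selbergTerms_pos (Nat.dvd_of_mem_divisors hl)).le
  · exact le_rfl

theorem one_le_SS (hD : 1 ≤ D) : 1 ≤ SS s D := by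
  unfold SS
  have h1 : (1 : ℕ) ∈ s.prodPrimes.divisors := by
    rw [Nat.mem_divisors]
    exact ⟨one_dvd _, prodPrimes_ne_zero⟩
  calc (1 : ℝ) = if 1 ≤ D then s.selbergTerms 1 else 0 := by
        rw [if_pos hD]
        exact selbergTerms_isMultiplicative.map_one.symm
    _ ≤ _ := by
        apply Finset.single_le_sum (f := fun l => if l ≤ D then s.selbergTerms l else 0) _ h1
        intro l hl
        split_ifs
        · exact (selbergTerms_pos (Nat.dvd_of_mem_divisors hl)).le
        · exact le_rfl

/-- the Selberg weights -/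
def lam (d : ℕ) : ℝ :=
  if d ∣ s.prodPrimes then
    (μ d : ℝ) / (s.nu d * SS s D) *
      ∑ l ∈ s.prodPrimes.divisors, if d ∣ l ∧ l ≤ D then s.selbergTerms l else 0
  else 0

theorem lam_one (hD : 1 ≤ D) : lam s D 1 = 1 := by
  unfold lam
  rw [if_pos (one_dvd _)]
  have hS : SS s D ≠ 0 := by
    have := one_le_SS s D hD
    positivity
  have : (∑ l ∈ s.prodPrimes.divisors, if 1 ∣ l ∧ l ≤ D then s.selbergTerms l else 0) = SS s D := by
    unfold SS
    simp
  rw [this, s.nu_mult.map_one]
  simp [hS]

theorem lam_eq_zero {d : ℕ} (hd : D < d) : lam s D d = 0 := by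
  unfold lam
  split_ifs with h
  · have : (∑ l ∈ s.prodPrimes.divisors, if d ∣ l ∧ l ≤ D then s.selbergTerms l else 0) = 0 := by
      apply Finset.sum_eq_zero
      intro l hl
      rw [if_neg]
      rintro ⟨h1, h2⟩
      have hl0 : 0 < l := Nat.pos_of_mem_divisors hl
      exact absurd (Nat.le_of_dvd hl0 h1) (by omega)
    rw [this, mul_zero]
  · rfl

theorem abs_lam_le {d : ℕ} (hD : 1 ≤ D) (hd : d ∣ s.prodPrimes) : |lam s D d| ≤ (s.nu d)⁻¹ := by
  unfold lam
  rw [if_pos hd]
  have hS : 0 < SS s D := lt_of_lt_of_le one_pos (one_le_SS s D hD)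
  have hnu : 0 < s.nu d := nu_pos_of_dvd_prodPrimes hd
  have hle : (∑ l ∈ s.prodPrimes.divisors, if d ∣ l ∧ l ≤ D then s.selbergTerms l else 0) ≤ SS s D := by
    unfold SS
    apply Finset.sum_le_sum
    intro l hl
    have hpos := (selbergTerms_pos (Nat.dvd_of_mem_divisors hl)).le
    split_ifs with h1 h2 h2
    · exact le_rfl
    · exact absurd h1.2 h2
    · exact hpos
    · exact le_rfl
  have hnn : 0 ≤ (∑ l ∈ s.prodPrimes.divisors, if d ∣ l ∧ l ≤ D then s.selbergTerms l else 0) := by
    apply Finset.sum_nonneg
    intro l hl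
    have hpos := (selbergTerms_pos (Nat.dvd_of_mem_divisors hl)).le
    split_ifs
    · exact hpos
    · exact le_rfl
  rw [abs_mul, abs_div, abs_of_nonneg hnn, abs_of_pos (mul_pos hnu hS)]
  have hmu : |(μ d : ℝ)| ≤ 1 := by
    have := abs_moebius_le_one (n := d)
    exact_mod_cast this
  calc |(μ d : ℝ)| / (s.nu d * SS s D) * _ ≤ 1 / (s.nu d * SS s D) * SS s D := by
        gcongr
    _ = (s.nu d)⁻¹ := by
        field_simp

theorem sum_nu_lam {l : ℕ} (hl : l ∣ s.prodPrimes) :
    (∑ d ∈ s.prodPrimes.divisors, if l ∣ d then s.nu d * lam s D d else 0) =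
      if l ≤ D then (μ l : ℝ) * s.selbergTerms l / SS s D else 0 := by
  have hP : Squarefree s.prodPrimes := s.prodPrimes_squarefree
  calc (∑ d ∈ s.prodPrimes.divisors, if l ∣ d then s.nu d * lam s D d else 0)
      = ∑ d ∈ s.prodPrimes.divisors, ∑ l' ∈ s.prodPrimes.divisors,
          (if l' ≤ D then s.selbergTerms l' / SS s D else 0) *
            (if l ∣ d ∧ d ∣ l' then (μ d : ℝ) else 0) := by
        apply Finset.sum_congr rfl
        intro d hd
        have hdP := Nat.dvd_of_mem_divisors hd
        have hnu : s.nu d ≠ 0 := (nu_pos_of_dvd_prodPrimes hdP).ne'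
        split_ifs with hld
        · unfold lam
          rw [if_pos hdP, Finset.mul_sum, Finset.mul_sum]
          apply Finset.sum_congr rfl
          intro l' _
          by_cases h1 : d ∣ l' <;> by_cases h2 : l' ≤ D
          · simp only [h1, h2, hld, and_self, if_true]
            field_simp
          · simp [h2]
          · simp [h1]
          · simp [h1]
        · simp [hld]
    _ = ∑ l' ∈ s.prodPrimes.divisors, (if l' ≤ D then s.selbergTerms l' / SS s D else 0) *
          ∑ d ∈ s.prodPrimes.divisors, (if l ∣ d ∧ d ∣ l' then (μ d : ℝ) else 0) := by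
        rw [Finset.sum_comm]
        simp_rw [Finset.mul_sum]
    _ = ∑ l' ∈ s.prodPrimes.divisors, (if l' ≤ D then s.selbergTerms l' / SS s D else 0) *
          (if l = l' then (μ l : ℝ) else 0) := by
        apply Finset.sum_congr rfl
        intro l' hl'
        rw [sum_moebius_between hP (Nat.dvd_of_mem_divisors hl')]
    _ = _ := by
        rw [Finset.sum_eq_single l]
        · rw [if_pos rfl]
          split_ifs
          · ring
          · simp
        · intro b _ hb
          rw [if_neg (Ne.symm hb), mul_zero]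
        · intro h
          exact absurd (Nat.mem_divisors.mpr ⟨hl, prodPrimes_ne_zero⟩) h

theorem mainSum_lam (hD : 1 ≤ D) : s.mainSum (lambdaSquared (lam s D)) = (SS s D)⁻¹ := by
  have hS : 0 < SS s D := lt_of_lt_of_le one_pos (one_le_SS s D hD)
  rw [mainSum_lambdaSquared_eq_sum_mul_sum_sq]
  calc _ = ∑ l ∈ s.prodPrimes.divisors, (if l ≤ D then s.selbergTerms l else 0) * ((SS s D)⁻¹) ^ 2 := by
        apply Finset.sum_congr rfl
        intro l hl
        have hlP := Nat.dvd_of_mem_divisors hl
        rw [sum_nu_lam s D hlP]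
        have hg : s.selbergTerms l ≠ 0 := (selbergTerms_pos hlP).ne'
        have hmu : (μ l : ℝ) ^ 2 = 1 := by
          have := moebius_sq_eq_one_of_squarefree (s.prodPrimes_squarefree.squarefree_of_dvd hlP)
          exact_mod_cast this
        split_ifs
        · rw [div_pow, mul_pow, hmu]
          field_simp
        · simp
    _ = SS s D * ((SS s D)⁻¹) ^ 2 := by
        rw [← Finset.sum_mul]
        rfl
    _ = _ := by
        field_simp

/-- the upper bound sieve with a crude error term -/
theorem selberg_bound (hD : 1 ≤ D) (A R : ℝ) (hA : 0 ≤ A) (hR : 0 ≤ R)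
    (hnu : ∀ d, d ∣ s.prodPrimes → d ≤ D → (s.nu d)⁻¹ ≤ A)
    (hrem : ∀ d, d ∣ s.prodPrimes → d ≤ D ^ 2 → |s.rem d| ≤ R) :
    s.siftedSum ≤ s.totalMass / SS s D + (D : ℝ) ^ 2 * A ^ 2 * R := by
  have h1 := s.siftedSum_le_mainSum_errSum_of_upperMoebius (lambdaSquared (lam s D))
    (upperMoebius_lambdaSquared (lam s D) (lam_one s D hD))
  rw [mainSum_lam s D hD] at h1
  refine h1.trans ?_
  rw [div_eq_mul_inv]
  gcongr
  unfold errSum lambdaSquared
  have hP0 : s.prodPrimes ≠ 0 := prodPrimes_ne_zero
  calc ∑ d ∈ s.prodPrimes.divisors,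
        |∑ d1 ∈ d.divisors, ∑ d2 ∈ d.divisors, if d = d1.lcm d2 then lam s D d1 * lam s D d2 else 0| *
          |s.rem d|
      ≤ ∑ d ∈ s.prodPrimes.divisors, ∑ d1 ∈ d.divisors, ∑ d2 ∈ d.divisors,
          (if d = d1.lcm d2 then |lam s D d1| * |lam s D d2| * |s.rem d| else 0) := by
        apply Finset.sum_le_sum
        intro d _
        calc _ ≤ (∑ d1 ∈ d.divisors, ∑ d2 ∈ d.divisors,
              |if d = d1.lcm d2 then lam s D d1 * lam s D d2 else 0|) * |s.rem d| := by
              gcongr
              refine (Finset.abs_sum_le_sum_abs _ _).trans ?_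
              apply Finset.sum_le_sum
              intro d1 _
              exact Finset.abs_sum_le_sum_abs _ _
          _ = _ := by
              rw [Finset.sum_mul]
              apply Finset.sum_congr rfl
              intro d1 _
              rw [Finset.sum_mul]
              apply Finset.sum_congr rfl
              intro d2 _
              split_ifs
              · rw [abs_mul]
              · simp
    _ ≤ ∑ d ∈ s.prodPrimes.divisors, ∑ d1 ∈ s.prodPrimes.divisors, ∑ d2 ∈ s.prodPrimes.divisors,
          (if d = d1.lcm d2 then |lam s D d1| * |lam s D d2| * |s.rem d| else 0) := by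
        apply Finset.sum_le_sum
        intro d hd
        have hdP := Nat.dvd_of_mem_divisors hd
        have hsub : d.divisors ⊆ s.prodPrimes.divisors := Nat.divisors_subset_of_dvd hP0 hdP
        calc _ ≤ ∑ d1 ∈ d.divisors, ∑ d2 ∈ s.prodPrimes.divisors,
              (if d = d1.lcm d2 then |lam s D d1| * |lam s D d2| * |s.rem d| else 0) := by
              apply Finset.sum_le_sum
              intro d1 _
              apply Finset.sum_le_sum_of_subset_of_nonneg hsub
              intro i _ _
              split_ifs <;> positivity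
          _ ≤ _ := by
              apply Finset.sum_le_sum_of_subset_of_nonneg hsub
              intro i _ _
              apply Finset.sum_nonneg
              intro j _
              split_ifs <;> positivity
    _ = ∑ d1 ∈ s.prodPrimes.divisors, ∑ d2 ∈ s.prodPrimes.divisors,
          |lam s D d1| * |lam s D d2| * |s.rem (d1.lcm d2)| := by
        rw [Finset.sum_comm]
        apply Finset.sum_congr rfl
        intro d1 hd1
        rw [Finset.sum_comm]
        apply Finset.sum_congr rfl
        intro d2 hd2
        rw [Finset.sum_eq_single (d1.lcm d2)]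
        · rw [if_pos rfl]
        · intro b _ hb
          rw [if_neg hb]
        · intro h
          exfalso
          apply h
          rw [Nat.mem_divisors]
          exact ⟨Nat.lcm_dvd (Nat.dvd_of_mem_divisors hd1) (Nat.dvd_of_mem_divisors hd2), hP0⟩
    _ ≤ ∑ d1 ∈ s.prodPrimes.divisors, ∑ d2 ∈ s.prodPrimes.divisors,
          (if d1 ≤ D ∧ d2 ≤ D then A * A * R else 0) := by
        apply Finset.sum_le_sum
        intro d1 hd1
        apply Finset.sum_le_sum
        intro d2 hd2
        have hd1P := Nat.dvd_of_mem_divisors hd1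
        have hd2P := Nat.dvd_of_mem_divisors hd2
        split_ifs with h
        · have hlcm : d1.lcm d2 ≤ D ^ 2 := by
            have h0 : d1.lcm d2 ≤ d1 * d2 := by
              apply Nat.le_of_dvd
              · exact Nat.mul_pos (Nat.pos_of_mem_divisors hd1) (Nat.pos_of_mem_divisors hd2)
              · exact Nat.lcm_dvd (dvd_mul_right _ _) (dvd_mul_left _ _)
            calc d1.lcm d2 ≤ d1 * d2 := h0
              _ ≤ D * D := Nat.mul_le_mul h.1 h.2
              _ = D ^ 2 := by ring
          have e1 := (abs_lam_le s D hD hd1P).trans (hnu d1 hd1P h.1)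
          have e2 := (abs_lam_le s D hD hd2P).trans (hnu d2 hd2P h.2)
          have e3 := hrem _ (Nat.lcm_dvd hd1P hd2P) hlcm
          gcongr
        · rcases not_and_or.mp h with h | h
          · rw [lam_eq_zero s D (not_le.mp h)]; simp
          · rw [lam_eq_zero s D (not_le.mp h)]; simp
    _ ≤ (D : ℝ) ^ 2 * A ^ 2 * R := by
        have hcard : ((s.prodPrimes.divisors.filter (· ≤ D)).card : ℝ) ≤ D := by
          have : s.prodPrimes.divisors.filter (· ≤ D) ⊆ Finset.Icc 1 D := by
            intro d hd
            rw [Finset.mem_filter] at hd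
            rw [Finset.mem_Icc]
            exact ⟨Nat.pos_of_mem_divisors hd.1, hd.2⟩
          have h2 := Finset.card_le_card this
          rw [Nat.card_Icc, Nat.add_sub_cancel] at h2
          exact_mod_cast h2
        have : ∑ d1 ∈ s.prodPrimes.divisors, ∑ d2 ∈ s.prodPrimes.divisors,
          (if d1 ≤ D ∧ d2 ≤ D then A * A * R else 0) =
            ((s.prodPrimes.divisors.filter (· ≤ D)).card : ℝ) *
            (((s.prodPrimes.divisors.filter (· ≤ D)).card : ℝ) * (A * A * R)) := by
          have : ∀ d1 ∈ s.prodPrimes.divisors, (∑ d2 ∈ s.prodPrimes.divisors,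
              (if d1 ≤ D ∧ d2 ≤ D then A * A * R else 0)) =
              if d1 ≤ D then ((s.prodPrimes.divisors.filter (· ≤ D)).card : ℝ) * (A * A * R) else 0 := by
            intro d1 _
            split_ifs with h
            · simp only [h, true_and]
              rw [← Finset.sum_filter, Finset.sum_const, nsmul_eq_mul]
            · simp [h]
          rw [Finset.sum_congr rfl this, ← Finset.sum_filter, Finset.sum_const, nsmul_eq_mul]
        rw [this]
        have hARnn : 0 ≤ A * A * R := by positivity
        calc _ ≤ (D : ℝ) * ((D : ℝ) * (A * A * R)) := by gcongr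
          _ = _ := by ring

end

end Pool.Agent.H6
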