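import Mathlib

set_option autoImplicit false

/-!
# The Brun-Hooley sieve, part 1: counting in residue classes and approximable functions
-/

open Finset

namespace Pool.Agent.H6.Hooley

open scoped Classical in
/-- number of bad residue classes modulo `q` -/
noncomputable def rho (bad : ℕ → ℕ → Prop) (q : ℕ) : ℕ := ((range q).filter (fun s => bad q s)).card

/-- product of the numbers of bad classes -/
noncomputable def RH (bad : ℕ → ℕ → Prop) (D : Finset ℕ) : ℝ := ∏ q ∈ D, (rho bad q : ℝ)

/-- product of the densities -/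
noncomputable def GH (bad : ℕ → ℕ → Prop) (D : Finset ℕ) : ℝ := ∏ q ∈ D, (rho bad q : ℝ) / q

open scoped Classical in
/-- indicator of the integers that are bad for all elements of `D` -/
noncomputable def ind (bad : ℕ → ℕ → Prop) (D : Finset ℕ) (s : ℕ) : ℝ :=
  if ∀ q ∈ D, bad q s then 1 else 0

/-- `bad q` only depends on the class modulo `q` -/
def Per (bad : ℕ → ℕ → Prop) : Prop := ∀ q s : ℕ, bad q (s % q) ↔ bad q s

variable {bad : ℕ → ℕ → Prop}

theorem RH_nonneg (D : Finset ℕ) : 0 ≤ RH bad D := prod_nonneg fun _ _ => Nat.cast_nonneg _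

theorem GH_nonneg (D : Finset ℕ) : 0 ≤ GH bad D :=
  prod_nonneg fun _ _ => div_nonneg (Nat.cast_nonneg _) (Nat.cast_nonneg _)

theorem RH_empty : RH bad ∅ = 1 := by simp [RH]
theorem GH_empty : GH bad ∅ = 1 := by simp [GH]
theorem ind_empty (s : ℕ) : ind bad ∅ s = 1 := by simp [ind]

theorem RH_union {D E : Finset ℕ} (h : Disjoint D E) : RH bad (D ∪ E) = RH bad D * RH bad E :=
  prod_union h

theorem GH_union {D E : Finset ℕ} (h : Disjoint D E) : GH bad (D ∪ E) = GH bad D * GH bad E :=
  prod_union h

theorem ind_union (D E : Finset ℕ) (s : ℕ) : ind bad (D ∪ E) s = ind bad D s * ind bad E s := by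
  classical
  by_cases h1 : ∀ q ∈ D, bad q s
  · by_cases h2 : ∀ q ∈ E, bad q s
    · have h3 : ∀ q ∈ D ∪ E, bad q s := by
        intro q hq
        rcases mem_union.1 hq with h | h
        · exact h1 q h
        · exact h2 q h
      rw [ind, ind, ind, if_pos h1, if_pos h2, if_pos h3, one_mul]
    · have h3 : ¬ ∀ q ∈ D ∪ E, bad q s := fun h => h2 fun q hq => h q (mem_union_right _ hq)
      rw [ind, ind, ind, if_neg h2, if_neg h3, mul_zero]
  · have h3 : ¬ ∀ q ∈ D ∪ E, bad q s := fun h => h1 fun q hq => h q (mem_union_left _ hq)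
    rw [ind, ind, ind, if_neg h1, if_neg h3, zero_mul]

theorem coprime_prod {q : ℕ} {D : Finset ℕ} (hq : q.Prime) (hD : ∀ p ∈ D, p.Prime) (h : q ∉ D) :
    Nat.Coprime q (∏ p ∈ D, p) := by
  apply Nat.Coprime.prod_right
  intro p hp
  rw [Nat.coprime_primes hq (hD p hp)]
  rintro rfl
  exact h hp

open scoped Classical in
/-- number of bad integers in a full period -/
theorem card_period (hper : Per bad) (D : Finset ℕ) (hD : ∀ q ∈ D, q.Prime) :
    ((range (∏ q ∈ D, q)).filter (fun s => ∀ q ∈ D, bad q s)).card = ∏ q ∈ D, rho bad q := by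
  induction D using Finset.induction_on with
  | empty => simp
  | insert q D hqD ih =>
    have hq : q.Prime := hD q (mem_insert_self _ _)
    have hD' : ∀ p ∈ D, p.Prime := fun p hp => hD p (mem_insert_of_mem hp)
    obtain ⟨P, hP⟩ : ∃ P, P = ∏ p ∈ D, p := ⟨_, rfl⟩
    have hcop : Nat.Coprime q P := by rw [hP]; exact coprime_prod hq hD' hqD
    have hP0 : 0 < P := by rw [hP]; exact prod_pos fun p hp => (hD' p hp).pos
    rw [prod_insert hqD, prod_insert hqD, ← ih hD', rho, ← card_product, ← hP]
    apply card_nbij (fun s => (s % q, s % P))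
    · intro s hs
      rw [mem_coe, mem_filter, mem_range] at hs
      rw [mem_coe, mem_product, mem_filter, mem_filter, mem_range, mem_range]
      refine ⟨⟨Nat.mod_lt _ hq.pos, (hper q s).2 (hs.2 q (mem_insert_self _ _))⟩,
        Nat.mod_lt _ hP0, ?_⟩
      intro p hp
      have hpP : p ∣ P := by rw [hP]; exact dvd_prod_of_mem _ hp
      rw [← hper p (s % P), Nat.mod_mod_of_dvd _ hpP, hper]
      exact hs.2 p (mem_insert_of_mem hp)
    · intro s hs t ht hst
      rw [mem_coe, mem_filter, mem_range] at hs ht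
      rw [Prod.mk.injEq] at hst
      have h1 : s ≡ t [MOD q * P] := (Nat.modEq_and_modEq_iff_modEq_mul hcop).1 hst
      have h2 := h1
      unfold Nat.ModEq at h2
      rwa [Nat.mod_eq_of_lt hs.1, Nat.mod_eq_of_lt ht.1] at h2
    · rintro ⟨a, b⟩ hab
      rw [mem_coe, mem_product, mem_filter, mem_filter, mem_range, mem_range] at hab
      obtain ⟨⟨ha1, ha2⟩, hb1, hb2⟩ := hab
      simp only at ha1 ha2 hb1 hb2
      obtain ⟨x, hx1, hx2⟩ := Nat.chineseRemainder hcop a b
      refine ⟨x % (q * P), ?_, ?_⟩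
      · rw [mem_coe, mem_filter, mem_range]
        refine ⟨Nat.mod_lt _ (Nat.mul_pos hq.pos hP0), ?_⟩
        intro p hp
        rcases mem_insert.1 hp with rfl | hp
        · rw [← hper, Nat.mod_mod_of_dvd _ (dvd_mul_right _ _)]
          have : x % p = a := by rw [hx1, Nat.mod_eq_of_lt ha1]
          rw [this]; exact ha2
        · have hpP : p ∣ P := by rw [hP]; exact dvd_prod_of_mem _ hp
          rw [← hper, Nat.mod_mod_of_dvd _ (hpP.mul_left q), ← Nat.mod_mod_of_dvd x hpP, hx2,
            Nat.mod_mod_of_dvd _ hpP, hper]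
          exact hb2 p hp
      · simp only [Prod.mk.injEq]
        constructor
        · rw [Nat.mod_mod_of_dvd _ (dvd_mul_right _ _), hx1, Nat.mod_eq_of_lt ha1]
        · rw [Nat.mod_mod_of_dvd _ (dvd_mul_left _ _), hx2, Nat.mod_eq_of_lt hb1]

open scoped Classical in
/-- counting bad integers below `S` -/
theorem card_bad (hper : Per bad) (D : Finset ℕ) (hD : ∀ q ∈ D, q.Prime) (S : ℕ) :
    |((((range S).filter (fun s => ∀ q ∈ D, bad q s)).card : ℕ) : ℝ) - S * GH bad D|
      ≤ RH bad D := by
  obtain ⟨P, hP⟩ : ∃ P, P = ∏ p ∈ D, p := ⟨_, rfl⟩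
  have hP0 : 0 < P := by rw [hP]; exact prod_pos fun p hp => (hD p hp).pos
  obtain ⟨R, hR⟩ : ∃ R, R = ∏ q ∈ D, rho bad q := ⟨_, rfl⟩
  obtain ⟨p, hp⟩ : ∃ p : ℕ → Prop, p = fun s => ∀ q ∈ D, bad q s := ⟨_, rfl⟩
  have hperiodic : Function.Periodic p P := by
    intro s
    rw [hp]
    simp only [eq_iff_iff]
    apply forall_congr'
    intro q
    apply forall_congr'
    intro hq
    have hqP : q ∣ P := by rw [hP]; exact dvd_prod_of_mem _ hq
    rw [← hper q (s + P), ← hper q s]
    obtain ⟨c, hc⟩ := hqP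
    rw [hc, Nat.add_mul_mod_self_left]
  have hblock : ∀ n : ℕ, ((Ico n (n + P)).filter p).card = R := by
    intro n
    rw [Nat.filter_Ico_card_eq_of_periodic n P p hperiodic, Nat.count_eq_card_filter_range, hR,
      ← card_period hper D hD, ← hP]
    apply congrArg
    ext x
    simp only [mem_filter, hp]
  have hmult : ∀ k : ℕ, ((range (k * P)).filter p).card = k * R := by
    intro k
    induction k with
    | zero => simp
    | succ k ih =>
      have h1 : range ((k + 1) * P) = range (k * P) ∪ Ico (k * P) (k * P + P) := by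
        ext x
        simp only [mem_range, mem_union, mem_Ico]
        constructor
        · intro h
          by_cases h' : x < k * P
          · exact Or.inl h'
          · right; refine ⟨by omega, ?_⟩
            calc x < (k + 1) * P := h
              _ = k * P + P := by ring
        · rintro (h | h)
          · calc x < k * P := h
              _ ≤ (k + 1) * P := Nat.mul_le_mul_right _ (by omega)
          · calc x < k * P + P := h.2
              _ = (k + 1) * P := by ring
      have hdisj : Disjoint ((range (k * P)).filter p) ((Ico (k * P) (k * P + P)).filter p) := by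
        apply disjoint_filter_filter
        rw [disjoint_left]
        intro x hx hx'
        rw [mem_range] at hx
        rw [mem_Ico] at hx'
        omega
      rw [h1, filter_union, card_union_of_disjoint hdisj, ih, hblock]
      ring
  have hlow : S / P * R ≤ ((range S).filter p).card := by
    rw [← hmult]
    apply card_le_card
    apply filter_subset_filter
    exact range_subset_range.2 (Nat.div_mul_le_self S P)
  have hup : ((range S).filter p).card ≤ (S / P + 1) * R := by
    rw [← hmult]
    apply card_le_card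
    apply filter_subset_filter
    apply range_subset_range.2
    have := Nat.lt_div_mul_add hP0 (a := S)
    calc S ≤ S / P * P + P := this.le
      _ = (S / P + 1) * P := by ring
  have hG : GH bad D = (R : ℝ) / P := by
    rw [GH, prod_div_distrib, hR, hP]
    push_cast
    rfl
  have hRR : RH bad D = R := by rw [RH, hR]; push_cast; rfl
  have hfe : (range S).filter (fun s => ∀ q ∈ D, bad q s) = (range S).filter p := by
    ext x
    simp only [mem_filter, hp]
  rw [hG, hRR, hfe]
  have hP0' : (0 : ℝ) < P := by exact_mod_cast hP0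
  have h1 : ((S / P : ℕ) : ℝ) ≤ S / P := Nat.cast_div_le
  have h2 : (S : ℝ) / P < ((S / P : ℕ) : ℝ) + 1 := by
    rw [div_lt_iff₀ hP0']
    have := Nat.lt_div_mul_add hP0 (a := S)
    have h3 : (S : ℝ) < ((S / P : ℕ) : ℝ) * P + P := by exact_mod_cast this
    linarith
  have hR0 : (0 : ℝ) ≤ R := Nat.cast_nonneg _
  have hlow' : ((S / P : ℕ) : ℝ) * R ≤ ((((range S).filter p).card : ℕ) : ℝ) := by
    exact_mod_cast hlow
  have hup' : ((((range S).filter p).card : ℕ) : ℝ) ≤ (((S / P : ℕ) : ℝ) + 1) * R := by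
    exact_mod_cast hup
  have e : (S : ℝ) * (R / P) = S / P * R := by ring
  rw [e, abs_le]
  constructor
  · have : (S : ℝ) / P * R ≤ (((S / P : ℕ) : ℝ) + 1) * R := by gcongr
    linarith
  · have : ((S / P : ℕ) : ℝ) * R ≤ (S : ℝ) / P * R := by gcongr
    linarith

/-- `f` has mean `m` with error `e`, independently of the primes outside `Q` -/
def Approx (bad : ℕ → ℕ → Prop) (S : ℕ) (Q : Finset ℕ) (f : ℕ → ℝ) (m e : ℝ) : Prop :=
  ∀ D : Finset ℕ, (∀ q ∈ D, q.Prime) → Disjoint D Q →
    |∑ s ∈ range S, f s * ind bad D s - S * m * GH bad D| ≤ e * RH bad D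

theorem approx_one (hper : Per bad) (S : ℕ) : Approx bad S ∅ (fun _ => 1) 1 1 := by
  classical
  intro D hD _
  have h := card_bad hper D hD S
  have e : ∑ s ∈ range S, (1 : ℝ) * ind bad D s
      = (((range S).filter (fun s => ∀ q ∈ D, bad q s)).card : ℕ) := by
    rw [card_filter]
    push_cast
    apply sum_congr rfl
    intro s _
    rw [one_mul, ind]
  rw [e, mul_one, one_mul]
  exact h

theorem approx_sum {S : ℕ} {Q B : Finset ℕ} {f : ℕ → ℝ} {m e : ℝ} (h : Approx bad S Q f m e)
    (hB : ∀ q ∈ B, q.Prime) (hQB : Disjoint B Q) (F : Finset (Finset ℕ)) (hF : ∀ D ∈ F, D ⊆ B)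
    (σ : Finset ℕ → ℝ) (hσ : ∀ D ∈ F, |σ D| ≤ 1) :
    Approx bad S (Q ∪ B) (fun s => f s * ∑ D ∈ F, σ D * ind bad D s)
      (m * ∑ D ∈ F, σ D * GH bad D) (e * ∑ D ∈ F, RH bad D) := by
  intro E hE hEQ
  rw [disjoint_union_right] at hEQ
  have e1 : ∑ s ∈ range S, f s * (∑ D ∈ F, σ D * ind bad D s) * ind bad E s
      - S * (m * ∑ D ∈ F, σ D * GH bad D) * GH bad E
      = ∑ D ∈ F, σ D * (∑ s ∈ range S, f s * ind bad (D ∪ E) s - S * m * GH bad (D ∪ E)) := by
    have h1 : ∀ D ∈ F, σ D * (∑ s ∈ range S, f s * ind bad (D ∪ E) s - S * m * GH bad (D ∪ E))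
        = ∑ s ∈ range S, f s * (σ D * ind bad D s) * ind bad E s
          - S * (m * (σ D * GH bad D)) * GH bad E := by
      intro D hD
      have hDE : Disjoint D E := by
        apply Disjoint.mono_left (hF D hD)
        exact hEQ.2.symm
      rw [GH_union hDE, mul_sub, mul_sum]
      congr 1
      · apply sum_congr rfl
        intro s _
        rw [ind_union]; ring
      · ring
    rw [sum_congr rfl h1, sum_sub_distrib, sum_comm, mul_sum, mul_sum, sum_mul]
    congr 1
    · apply sum_congr rfl
      intro s _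
      rw [mul_sum, sum_mul]
  rw [e1]
  calc |∑ D ∈ F, σ D * (∑ s ∈ range S, f s * ind bad (D ∪ E) s - S * m * GH bad (D ∪ E))|
      ≤ ∑ D ∈ F, |σ D * (∑ s ∈ range S, f s * ind bad (D ∪ E) s - S * m * GH bad (D ∪ E))| :=
        abs_sum_le_sum_abs _ _
    _ ≤ ∑ D ∈ F, e * (RH bad D * RH bad E) := by
        apply sum_le_sum
        intro D hD
        have hDE : Disjoint D E := Disjoint.mono_left (hF D hD) hEQ.2.symm
        have h2 := h (D ∪ E) (by
          intro q hq
          rcases mem_union.1 hq with hq | hq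
          · exact hB q (hF D hD hq)
          · exact hE q hq) (by
          rw [disjoint_union_left]
          exact ⟨Disjoint.mono_left (hF D hD) hQB, hEQ.1⟩)
        rw [abs_mul, ← RH_union hDE]
        calc |σ D| * |∑ s ∈ range S, f s * ind bad (D ∪ E) s - S * m * GH bad (D ∪ E)|
            ≤ 1 * |∑ s ∈ range S, f s * ind bad (D ∪ E) s - S * m * GH bad (D ∪ E)| := by
              gcongr; exact hσ D hD
          _ = _ := one_mul _
          _ ≤ _ := h2
    _ = e * (∑ D ∈ F, RH bad D) * RH bad E := by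
        rw [mul_sum, sum_mul]
        apply sum_congr rfl
        intro D _; ring

theorem approx_sub {S : ℕ} {Q : Finset ℕ} {f g : ℕ → ℝ} {m e m' e' : ℝ}
    (h : Approx bad S Q f m e) (h' : Approx bad S Q g m' e') :
    Approx bad S Q (fun s => f s - g s) (m - m') (e + e') := by
  intro D hD hDQ
  have h1 := h D hD hDQ
  have h2 := h' D hD hDQ
  have e1 : ∑ s ∈ range S, (f s - g s) * ind bad D s - S * (m - m') * GH bad D
      = (∑ s ∈ range S, f s * ind bad D s - S * m * GH bad D)
        - (∑ s ∈ range S, g s * ind bad D s - S * m' * GH bad D) := by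
    simp only [sub_mul, sum_sub_distrib, mul_sub]
    ring
  rw [e1, add_mul]
  exact (abs_sub _ _).trans (add_le_add h1 h2)

theorem Approx.mono {S : ℕ} {Q : Finset ℕ} {f : ℕ → ℝ} {m e e' : ℝ}
    (h : Approx bad S Q f m e) (hee : e ≤ e') : Approx bad S Q f m e' := fun D hD hDQ =>
  (h D hD hDQ).trans (mul_le_mul_of_nonneg_right hee (RH_nonneg D))

theorem Approx.total {S : ℕ} {Q : Finset ℕ} {f : ℕ → ℝ} {m e : ℝ}
    (h : Approx bad S Q f m e) : |∑ s ∈ range S, f s - S * m| ≤ e := by
  have h1 := h ∅ (by simp) (by simp)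
  simpa [ind_empty, GH_empty, RH_empty] using h1

end Pool.Agent.H6.Hooley
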