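import Mathlib
import Pool.Agent.H6.Hooley1

set_option autoImplicit false

/-!
# The Brun-Hooley sieve, part 2: truncated inclusion-exclusion in one block
-/

open Finset

namespace Pool.Agent.H6.Hooley

variable {bad : ℕ → ℕ → Prop}

open scoped Classical in
/-- the bad elements of a block -/
noncomputable def badIn (bad : ℕ → ℕ → Prop) (B : Finset ℕ) (s : ℕ) : Finset ℕ :=
  B.filter (fun q => bad q s)

open scoped Classical in
/-- indicator of no bad element in the block -/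
noncomputable def Zf (bad : ℕ → ℕ → Prop) (B : Finset ℕ) (s : ℕ) : ℝ :=
  if ∀ q ∈ B, ¬ bad q s then 1 else 0

/-- subsets with at most `b` elements -/
def famU (b : ℕ) (B : Finset ℕ) : Finset (Finset ℕ) := B.powerset.filter (fun D => D.card ≤ b)

/-- truncated inclusion-exclusion -/
noncomputable def Uf (bad : ℕ → ℕ → Prop) (b : ℕ) (B : Finset ℕ) (s : ℕ) : ℝ :=
  ∑ D ∈ famU b B, (-1 : ℝ) ^ D.card * ind bad D s

/-- number of sets of `b + 1` bad elements -/
noncomputable def Hf (bad : ℕ → ℕ → Prop) (b : ℕ) (B : Finset ℕ) (s : ℕ) : ℝ :=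
  ∑ D ∈ B.powersetCard (b + 1), 1 * ind bad D s

theorem mem_badIn {B : Finset ℕ} {s q : ℕ} : q ∈ badIn bad B s ↔ q ∈ B ∧ bad q s := by
  simp [badIn]

theorem ind_eq (D B : Finset ℕ) (hD : D ⊆ B) (s : ℕ) :
    ind bad D s = if D ⊆ badIn bad B s then 1 else 0 := by
  classical
  rw [ind]
  apply if_congr _ rfl rfl
  constructor
  · intro h q hq
    exact mem_badIn.2 ⟨hD hq, h q hq⟩
  · intro h q hq
    exact (mem_badIn.1 (h hq)).2

theorem badIn_sub (B : Finset ℕ) (s : ℕ) : badIn bad B s ⊆ B := fun _ h => (mem_badIn.1 h).1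

theorem Uf_eq (b : ℕ) (B : Finset ℕ) (s : ℕ) :
    Uf bad b B s = ∑ k ∈ range (b + 1), (-1 : ℝ) ^ k * ((badIn bad B s).card.choose k : ℕ) := by
  obtain ⟨A, hA⟩ : ∃ A, A = badIn bad B s := ⟨_, rfl⟩
  have hAB : A ⊆ B := by rw [hA]; exact badIn_sub B s
  have h1 : Uf bad b B s = ∑ D ∈ A.powerset, (fun k => if k ≤ b then (-1 : ℝ) ^ k else 0) D.card := by
    rw [Uf, famU, sum_filter]
    have h2 : ∀ D ∈ B.powerset, (if D.card ≤ b then (-1 : ℝ) ^ D.card * ind bad D s else 0)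
        = if D ⊆ A then (if D.card ≤ b then (-1 : ℝ) ^ D.card else 0) else 0 := by
      intro D hD
      rw [ind_eq D B (mem_powerset.1 hD), ← hA]
      split_ifs <;> simp
    rw [sum_congr rfl h2, ← sum_filter]
    apply sum_congr _ (fun _ _ => rfl)
    ext D
    simp only [mem_filter, mem_powerset]
    constructor
    · exact fun h => h.2
    · exact fun h => ⟨h.trans hAB, h⟩
  rw [h1, sum_powerset_apply_card (fun k => if k ≤ b then (-1 : ℝ) ^ k else 0), ← hA]
  simp only [nsmul_eq_mul]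
  have h3 : ∀ n N : ℕ, ∑ k ∈ range (N + 1), ((n.choose k : ℕ) : ℝ) * (if k ≤ b then (-1) ^ k else 0)
      = ∑ k ∈ (range (N + 1)).filter (fun k => k ≤ b), (-1 : ℝ) ^ k * ((n.choose k : ℕ) : ℝ) := by
    intro n N
    rw [sum_filter]
    apply sum_congr rfl
    intro k _
    split_ifs <;> ring
  rw [h3]
  apply sum_subset_zero_on_sdiff
  · intro k hk
    rw [mem_filter] at hk
    rw [mem_range]; omega
  · intro k hk
    rw [mem_sdiff, mem_range, mem_filter, mem_range] at hk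
    have : A.card < k := by
      by_contra hcon
      apply hk.2
      constructor <;> omega
    rw [Nat.choose_eq_zero_of_lt this]; simp
  · intro _ _; rfl

theorem Hf_eq (b : ℕ) (B : Finset ℕ) (s : ℕ) :
    Hf bad b B s = ((badIn bad B s).card.choose (b + 1) : ℕ) := by
  obtain ⟨A, hA⟩ : ∃ A, A = badIn bad B s := ⟨_, rfl⟩
  have hAB : A ⊆ B := by rw [hA]; exact badIn_sub B s
  rw [Hf, ← hA, ← card_powersetCard, card_eq_sum_ones]
  push_cast
  have h2 : ∀ D ∈ B.powersetCard (b + 1), 1 * ind bad D s = if D ⊆ A then (1 : ℝ) else 0 := by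
    intro D hD
    rw [one_mul, ind_eq D B (mem_powersetCard.1 hD).1, ← hA]
  rw [sum_congr rfl h2, ← sum_filter]
  apply sum_congr _ (fun _ _ => rfl)
  ext D
  simp only [mem_filter, mem_powersetCard]
  constructor
  · rintro ⟨⟨_, h1⟩, h2⟩; exact ⟨h2, h1⟩
  · rintro ⟨h1, h2⟩; exact ⟨⟨h1.trans hAB, h2⟩, h1⟩

theorem Zf_eq (B : Finset ℕ) (s : ℕ) :
    Zf bad B s = if (badIn bad B s).card = 0 then 1 else 0 := by
  classical
  rw [Zf]
  apply if_congr _ rfl rfl
  rw [card_eq_zero, badIn, filter_eq_empty_iff]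

theorem Zf_le_Uf {b : ℕ} (hb : Even b) (B : Finset ℕ) (s : ℕ) : Zf bad B s ≤ Uf bad b B s := by
  rw [Zf_eq, Uf_eq]
  rcases Nat.eq_zero_or_pos (badIn bad B s).card with h | h
  · rw [if_pos h, h, sum_range_succ']
    simp
  · rw [if_neg (by omega)]
    obtain ⟨n, hn⟩ : ∃ n, (badIn bad B s).card = n + 1 := ⟨_, (Nat.succ_pred_eq_of_pos h).symm⟩
    have h1 := Int.alternating_sum_range_choose_eq_choose (n := n) (m := b)
    rw [hn]
    have h2 : (∑ k ∈ range (b + 1), (-1 : ℝ) ^ k * ((n + 1).choose k : ℕ)) =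
        ((∑ k ∈ range (b + 1), ((-1) ^ k * ((n + 1).choose k : ℕ) : ℤ) : ℤ) : ℝ) := by
      push_cast; rfl
    rw [h2, h1, hb.neg_one_pow]
    push_cast
    positivity

theorem Uf_le {b : ℕ} (hb : Even b) (B : Finset ℕ) (s : ℕ) :
    Uf bad b B s ≤ Zf bad B s + Hf bad b B s := by
  rw [Zf_eq, Uf_eq, Hf_eq]
  rcases Nat.eq_zero_or_pos (badIn bad B s).card with h | h
  · rw [if_pos h, h, sum_range_succ']
    simp
  · rw [if_neg (by omega)]
    obtain ⟨n, hn⟩ : ∃ n, (badIn bad B s).card = n + 1 := ⟨_, (Nat.succ_pred_eq_of_pos h).symm⟩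
    have h1 := Int.alternating_sum_range_choose_eq_choose (n := n) (m := b)
    rw [hn]
    have h2 : (∑ k ∈ range (b + 1), (-1 : ℝ) ^ k * ((n + 1).choose k : ℕ)) =
        ((∑ k ∈ range (b + 1), ((-1) ^ k * ((n + 1).choose k : ℕ) : ℤ) : ℤ) : ℝ) := by
      push_cast; rfl
    rw [h2, h1, hb.neg_one_pow, Nat.choose_succ_succ]
    push_cast
    have : (0 : ℝ) ≤ ((n.choose (b + 1) : ℕ) : ℝ) := Nat.cast_nonneg _
    linarith

theorem Zf_nonneg (B : Finset ℕ) (s : ℕ) : 0 ≤ Zf bad B s := by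
  unfold Zf; split_ifs <;> norm_num

theorem Hf_nonneg (b : ℕ) (B : Finset ℕ) (s : ℕ) : 0 ≤ Hf bad b B s := by
  rw [Hf_eq]; exact Nat.cast_nonneg _

/-- elementary symmetric sums -/
theorem esym_le {a : ℕ → ℝ} (B : Finset ℕ) (ha : ∀ q ∈ B, 0 ≤ a q) (k : ℕ) :
    ∑ D ∈ B.powersetCard k, ∏ q ∈ D, a q ≤ (∑ q ∈ B, a q) ^ k := by
  classical
  induction B using Finset.induction_on generalizing k with
  | empty =>
    rcases Nat.eq_zero_or_pos k with h | h
    · subst h; simp
    · rw [powersetCard_eq_empty.2 (by simpa using h)]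
      simp only [sum_empty]; positivity
  | insert x B hx ih =>
    have hx0 : 0 ≤ a x := ha x (mem_insert_self _ _)
    have hB0 : ∀ q ∈ B, 0 ≤ a q := fun q hq => ha q (mem_insert_of_mem hq)
    have hL : 0 ≤ ∑ q ∈ B, a q := sum_nonneg hB0
    rcases Nat.eq_zero_or_pos k with h | h
    · subst h; simp
    · obtain ⟨j, rfl⟩ : ∃ j, k = j + 1 := ⟨_, (Nat.succ_pred_eq_of_pos h).symm⟩
      have hdisj : Disjoint (powersetCard (j + 1) B) ((powersetCard j B).image (insert x)) := by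
        rw [disjoint_left]
        intro D hD hD'
        rw [mem_image] at hD'
        obtain ⟨E, _, rfl⟩ := hD'
        exact hx ((mem_powersetCard.1 hD).1 (mem_insert_self _ _))
      have hinj : Set.InjOn (insert x) ((powersetCard j B : Finset (Finset ℕ)) : Set (Finset ℕ)) := by
        intro D hD E hE hDE
        have h1 : x ∉ D := fun h => hx ((mem_powersetCard.1 (mem_coe.1 hD)).1 h)
        have h2 : x ∉ E := fun h => hx ((mem_powersetCard.1 (mem_coe.1 hE)).1 h)
        rw [← erase_insert h1, ← erase_insert h2, hDE]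
      rw [powersetCard_succ_insert hx, sum_union hdisj, sum_image hinj, sum_insert hx]
      have e1 : ∑ D ∈ powersetCard j B, ∏ q ∈ insert x D, a q
          = a x * ∑ D ∈ powersetCard j B, ∏ q ∈ D, a q := by
        rw [mul_sum]
        apply sum_congr rfl
        intro D hD
        rw [prod_insert (fun h => hx ((mem_powersetCard.1 hD).1 h))]
      rw [e1]
      calc (∑ D ∈ powersetCard (j + 1) B, ∏ q ∈ D, a q)
            + a x * ∑ D ∈ powersetCard j B, ∏ q ∈ D, a q
          ≤ (∑ q ∈ B, a q) ^ (j + 1) + a x * (∑ q ∈ B, a q) ^ j := by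
            gcongr
            · exact ih hB0 (j + 1)
            · exact ih hB0 j
        _ = (a x + ∑ q ∈ B, a q) * (∑ q ∈ B, a q) ^ j := by ring
        _ ≤ (a x + ∑ q ∈ B, a q) * (a x + ∑ q ∈ B, a q) ^ j := by
            gcongr; linarith
        _ = _ := by ring

/-- sums over the small subsets -/
theorem sum_famU {M : Type*} [AddCommMonoid M] (b : ℕ) (B : Finset ℕ) (f : Finset ℕ → M) :
    ∑ D ∈ famU b B, f D = ∑ k ∈ range (b + 1), ∑ D ∈ B.powersetCard k, f D := by
  classical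
  have h1 : famU b B = (range (b + 1)).biUnion (fun k => B.powersetCard k) := by
    ext D
    simp only [famU, mem_filter, mem_powerset, mem_biUnion, mem_range, mem_powersetCard]
    constructor
    · rintro ⟨h1, h2⟩; exact ⟨D.card, by omega, h1, rfl⟩
    · rintro ⟨k, h1, h2, h3⟩; exact ⟨h2, by omega⟩
  rw [h1, sum_biUnion]
  intro i _ j _ hij
  exact pairwise_disjoint_powersetCard B hij

theorem sum_RH_le (b : ℕ) (B : Finset ℕ) :
    ∑ D ∈ famU b B, RH bad D ≤ (1 + ∑ q ∈ B, (rho bad q : ℝ)) ^ b := by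
  obtain ⟨L, hL⟩ : ∃ L, L = ∑ q ∈ B, (rho bad q : ℝ) := ⟨_, rfl⟩
  have hL0 : 0 ≤ L := by rw [hL]; positivity
  rw [sum_famU, ← hL]
  have h1 : ∀ k ∈ range (b + 1), ∑ D ∈ B.powersetCard k, RH bad D ≤ L ^ k := by
    intro k _
    rw [hL]
    exact esym_le B (fun q _ => Nat.cast_nonneg _) k
  refine (sum_le_sum h1).trans ?_
  clear h1
  induction b with
  | zero => simp
  | succ b ih =>
    rw [sum_range_succ]
    calc ∑ k ∈ range (b + 1), L ^ k + L ^ (b + 1) ≤ (1 + L) ^ b + L * (1 + L) ^ b := by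
          apply add_le_add ih
          rw [pow_succ']
          gcongr; linarith
      _ = _ := by ring

theorem sum_RH_card_le (b : ℕ) (B : Finset ℕ) :
    ∑ D ∈ B.powersetCard (b + 1), RH bad D ≤ (1 + ∑ q ∈ B, (rho bad q : ℝ)) ^ (b + 1) := by
  refine (esym_le B (fun q _ => Nat.cast_nonneg _) (b + 1)).trans ?_
  have : 0 ≤ ∑ q ∈ B, (rho bad q : ℝ) := by positivity
  gcongr; linarith

theorem geom_small {L : ℝ} (h0 : 0 ≤ L) (h1 : L ≤ 1 / 4) (b : ℕ) :
    ∑ k ∈ range b, L ^ (k + 1) ≤ 1 / 3 := by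
  have h2 : ∑ k ∈ range b, L ^ (k + 1) ≤ L / (1 - L) := by
    have h3 : ∀ b : ℕ, ∑ k ∈ range b, L ^ (k + 1) + L ^ (b + 1) / (1 - L) = L / (1 - L) := by
      intro b
      have h4 : (1 : ℝ) - L ≠ 0 := by linarith
      induction b with
      | zero => simp
      | succ b ih =>
        rw [sum_range_succ, ← ih]
        field_simp; ring
    have h5 : 0 ≤ L ^ (b + 1) / (1 - L) := div_nonneg (by positivity) (by linarith)
    linarith [h3 b]
  refine h2.trans ?_
  rw [div_le_iff₀ (by linarith)]; linarith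

/-- the main factor is close to one -/
theorem main_ge {L : ℝ} (b : ℕ) (B : Finset ℕ) (hL : ∑ q ∈ B, (rho bad q : ℝ) / q ≤ L)
    (h1 : L ≤ 1 / 4) : 2 / 3 ≤ ∑ D ∈ famU b B, (-1 : ℝ) ^ D.card * GH bad D := by
  have hL0 : 0 ≤ ∑ q ∈ B, (rho bad q : ℝ) / q := sum_nonneg fun q _ => by positivity
  have hLL : 0 ≤ L := hL0.trans hL
  rw [sum_famU, sum_range_succ']
  have h0 : ∑ D ∈ B.powersetCard 0, (-1 : ℝ) ^ D.card * GH bad D = 1 := by
    simp [GH_empty]
  rw [h0]
  have h2 : ∀ k ∈ range b, -(L ^ (k + 1)) ≤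
      ∑ D ∈ B.powersetCard (k + 1), (-1 : ℝ) ^ D.card * GH bad D := by
    intro k _
    have h3 : |∑ D ∈ B.powersetCard (k + 1), (-1 : ℝ) ^ D.card * GH bad D| ≤ L ^ (k + 1) := by
      calc |∑ D ∈ B.powersetCard (k + 1), (-1 : ℝ) ^ D.card * GH bad D|
          ≤ ∑ D ∈ B.powersetCard (k + 1), |(-1 : ℝ) ^ D.card * GH bad D| :=
            abs_sum_le_sum_abs _ _
        _ = ∑ D ∈ B.powersetCard (k + 1), GH bad D := by
            apply sum_congr rfl
            intro D _
            rw [abs_mul, abs_pow, abs_neg, abs_one, one_pow, one_mul, abs_of_nonneg (GH_nonneg D)]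
        _ ≤ (∑ q ∈ B, (rho bad q : ℝ) / q) ^ (k + 1) :=
            esym_le B (fun q _ => by positivity) (k + 1)
        _ ≤ L ^ (k + 1) := by gcongr
    linarith [(abs_le.1 h3).1]
  have h4 := sum_le_sum h2
  rw [sum_neg_distrib] at h4
  have h5 := geom_small hLL h1 b
  linarith

theorem tail_le {L : ℝ} (b : ℕ) (B : Finset ℕ) (hL : ∑ q ∈ B, (rho bad q : ℝ) / q ≤ L) :
    ∑ D ∈ B.powersetCard (b + 1), 1 * GH bad D ≤ L ^ (b + 1) := by
  have hL0 : 0 ≤ ∑ q ∈ B, (rho bad q : ℝ) / q := sum_nonneg fun q _ => by positivity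
  simp only [one_mul]
  refine (esym_le B (fun q _ => by positivity) (b + 1)).trans ?_
  gcongr

end Pool.Agent.H6.Hooley
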