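import Mathlib
import Pool.Agent.H6.Hooley2

set_option autoImplicit false

/-!
# The Brun-Hooley sieve, part 3: combination of the blocks
-/

open Finset

namespace Pool.Agent.H6.Hooley

variable {bad : ℕ → ℕ → Prop}

/-- union of the first blocks -/
def Qs (B : ℕ → Finset ℕ) : ℕ → Finset ℕ
  | 0 => ∅
  | r + 1 => Qs B r ∪ B r

/-- product of the upper functions -/
noncomputable def Pf (bad : ℕ → ℕ → Prop) (B : ℕ → Finset ℕ) : ℕ → ℕ → ℝ
  | 0, _ => 1
  | r + 1, s => Pf bad B r s * Uf bad (2 * r + 2) (B r) s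

/-- the lower function -/
noncomputable def Lf (bad : ℕ → ℕ → Prop) (B : ℕ → Finset ℕ) : ℕ → ℕ → ℝ
  | 0, _ => 1
  | r + 1, s => Lf bad B r s * Uf bad (2 * r + 2) (B r) s
      - Pf bad B r s * Hf bad (2 * r + 2) (B r) s

/-- mean of the truncated inclusion-exclusion in block `i` -/
noncomputable def Mn (bad : ℕ → ℕ → Prop) (B : ℕ → Finset ℕ) (i : ℕ) : ℝ :=
  ∑ D ∈ famU (2 * i + 2) (B i), (-1 : ℝ) ^ D.card * GH bad D

/-- mean of the tail in block `i` -/
noncomputable def Tn (bad : ℕ → ℕ → Prop) (B : ℕ → Finset ℕ) (i : ℕ) : ℝ :=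
  ∑ D ∈ (B i).powersetCard (2 * i + 2 + 1), 1 * GH bad D

/-- mean of the product -/
noncomputable def mP (bad : ℕ → ℕ → Prop) (B : ℕ → Finset ℕ) : ℕ → ℝ
  | 0 => 1
  | r + 1 => mP bad B r * Mn bad B r

/-- mean of the lower function -/
noncomputable def mL (bad : ℕ → ℕ → Prop) (B : ℕ → Finset ℕ) : ℕ → ℝ
  | 0 => 1
  | r + 1 => mL bad B r * Mn bad B r - mP bad B r * Tn bad B r

/-- error of the product -/
noncomputable def eP (bad : ℕ → ℕ → Prop) (B : ℕ → Finset ℕ) : ℕ → ℝ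
  | 0 => 1
  | r + 1 => eP bad B r * (1 + ∑ q ∈ B r, (rho bad q : ℝ)) ^ (2 * r + 3)

theorem eP_nonneg (B : ℕ → Finset ℕ) (r : ℕ) : 0 ≤ eP bad B r := by
  induction r with
  | zero => simp [eP]
  | succ r ih => rw [eP]; positivity

theorem pointwise (B : ℕ → Finset ℕ) (r s : ℕ) :
    Lf bad B r s ≤ ∏ i ∈ range r, Zf bad (B i) s ∧
      ∏ i ∈ range r, Zf bad (B i) s ≤ Pf bad B r s := by
  induction r with
  | zero => simp [Lf, Pf]
  | succ r ih =>
    obtain ⟨h1, h2⟩ := ih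
    rw [prod_range_succ, Lf, Pf]
    obtain ⟨X, hX⟩ : ∃ X, X = ∏ i ∈ range r, Zf bad (B i) s := ⟨_, rfl⟩
    rw [← hX] at h1 h2 ⊢
    have hX0 : 0 ≤ X := by rw [hX]; exact prod_nonneg fun i _ => Zf_nonneg _ _
    have hev : Even (2 * r + 2) := ⟨r + 1, by ring⟩
    have hU1 := Zf_le_Uf (bad := bad) hev (B r) s
    have hU2 := Uf_le (bad := bad) hev (B r) s
    have hZ0 := Zf_nonneg (bad := bad) (B r) s
    have hH0 := Hf_nonneg (bad := bad) (2 * r + 2) (B r) s
    have hU0 : 0 ≤ Uf bad (2 * r + 2) (B r) s := hZ0.trans hU1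
    constructor
    · calc Lf bad B r s * Uf bad (2 * r + 2) (B r) s - Pf bad B r s * Hf bad (2 * r + 2) (B r) s
          ≤ X * Uf bad (2 * r + 2) (B r) s - X * Hf bad (2 * r + 2) (B r) s := by
            gcongr
        _ = X * (Uf bad (2 * r + 2) (B r) s - Hf bad (2 * r + 2) (B r) s) := by ring
        _ ≤ X * Zf bad (B r) s := by
            gcongr; linarith
    · exact mul_le_mul h2 hU1 hZ0 (hX0.trans h2)

theorem approx_all (hper : Per bad) (S : ℕ) (B : ℕ → Finset ℕ) (r : ℕ)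
    (hB : ∀ i, i < r → ∀ q ∈ B i, q.Prime) (hdisj : ∀ i, i < r → Disjoint (B i) (Qs B i)) :
    Approx bad S (Qs B r) (Pf bad B r) (mP bad B r) (eP bad B r) ∧
      Approx bad S (Qs B r) (Lf bad B r) (mL bad B r) ((r + 1) * eP bad B r) := by
  induction r with
  | zero =>
    have h := approx_one hper S
    constructor
    · exact h
    · have e : ((0 : ℕ) : ℝ) + 1 = 1 := by norm_num
      simp only [eP, mul_one]
      rw [e]
      exact h
  | succ r ih =>
    obtain ⟨h1, h2⟩ := ih (fun i hi => hB i (by omega)) (fun i hi => hdisj i (by omega))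
    have hBr := hB r (by omega)
    have hdr := hdisj r (by omega)
    obtain ⟨Y, hY⟩ : ∃ Y, Y = 1 + ∑ q ∈ B r, (rho bad q : ℝ) := ⟨_, rfl⟩
    have hY1 : 1 ≤ Y := by
      rw [hY]
      have : 0 ≤ ∑ q ∈ B r, (rho bad q : ℝ) := by positivity
      linarith
    have he := eP_nonneg (bad := bad) B r
    have hσ1 : ∀ D ∈ famU (2 * r + 2) (B r), |(-1 : ℝ) ^ D.card| ≤ 1 := by
      intro D _; rw [abs_pow, abs_neg, abs_one, one_pow]
    have hF1 : ∀ D ∈ famU (2 * r + 2) (B r), D ⊆ B r := by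
      intro D hD
      rw [famU, mem_filter, mem_powerset] at hD
      exact hD.1
    have hF2 : ∀ D ∈ (B r).powersetCard (2 * r + 2 + 1), D ⊆ B r := fun D hD =>
      (mem_powersetCard.1 hD).1
    have a1 := approx_sum h1 hBr hdr _ hF1 _ hσ1
    have a2 := approx_sum h2 hBr hdr _ hF1 _ hσ1
    have a3 := approx_sum h1 hBr hdr _ hF2 (fun _ => 1) (by simp)
    have hR1 : ∑ D ∈ famU (2 * r + 2) (B r), RH bad D ≤ Y ^ (2 * r + 3) := by
      refine (sum_RH_le _ _).trans ?_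
      rw [← hY]
      exact pow_le_pow_right₀ hY1 (by omega)
    have hR2 : ∑ D ∈ (B r).powersetCard (2 * r + 2 + 1), RH bad D ≤ Y ^ (2 * r + 3) := by
      refine (sum_RH_card_le _ _).trans ?_
      rw [← hY]
    have hdef : eP bad B (r + 1) = eP bad B r * Y ^ (2 * r + 3) := by rw [eP, hY]
    constructor
    · rw [hdef]
      refine Approx.mono (a1 : Approx bad S (Qs B (r + 1)) (Pf bad B (r + 1)) _ _) ?_
      gcongr
    · rw [hdef]
      refine Approx.mono
        (approx_sub a2 a3 : Approx bad S (Qs B (r + 1)) (Lf bad B (r + 1)) _ _) ?_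
      push_cast
      calc ((r : ℝ) + 1) * eP bad B r * (∑ D ∈ famU (2 * r + 2) (B r), RH bad D)
            + eP bad B r * ∑ D ∈ (B r).powersetCard (2 * r + 2 + 1), RH bad D
          ≤ ((r : ℝ) + 1) * eP bad B r * Y ^ (2 * r + 3) + eP bad B r * Y ^ (2 * r + 3) := by
            gcongr
        _ = _ := by ring

theorem geom16 (r : ℕ) : ∑ i ∈ range r, (3 / 2 : ℝ) * (1 / 4) ^ (2 * i + 3) ≤ 1 / 2 := by
  have h : ∀ r : ℕ, ∑ i ∈ range r, (3 / 2 : ℝ) * (1 / 4) ^ (2 * i + 3)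
      = (1 / 40) * (1 - (1 / 16) ^ r) := by
    intro r
    induction r with
    | zero => simp
    | succ r ih =>
      rw [sum_range_succ, ih, pow_succ (1 / 16 : ℝ)]
      have e : (1 / 4 : ℝ) ^ (2 * r + 3) = (1 / 16) ^ r * (1 / 64) := by
        rw [pow_add, pow_mul]; norm_num
      rw [e]; ring
  rw [h]
  have : (0 : ℝ) ≤ (1 / 16) ^ r := by positivity
  linarith

theorem means (B : ℕ → Finset ℕ) (r : ℕ)
    (hL : ∀ i, i < r → ∑ q ∈ B i, (rho bad q : ℝ) / q ≤ 1 / 4) :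
    (2 / 3 : ℝ) ^ r ≤ mP bad B r ∧
      mP bad B r * (1 - ∑ i ∈ range r, (3 / 2 : ℝ) * (1 / 4) ^ (2 * i + 3)) ≤ mL bad B r := by
  induction r with
  | zero => simp [mP, mL]
  | succ r ih =>
    obtain ⟨h1, h2⟩ := ih (fun i hi => hL i (by omega))
    have hM : 2 / 3 ≤ Mn bad B r := main_ge _ _ (hL r (by omega)) le_rfl
    have hT : Tn bad B r ≤ (1 / 4) ^ (2 * r + 3) := tail_le _ _ (hL r (by omega))
    have hm0 : 0 < mP bad B r := lt_of_lt_of_le (by positivity) h1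
    have hs := geom16 r
    rw [mP, mL, sum_range_succ]
    obtain ⟨σ, hσ⟩ : ∃ σ, σ = ∑ i ∈ range r, (3 / 2 : ℝ) * (1 / 4) ^ (2 * i + 3) := ⟨_, rfl⟩
    rw [← hσ] at h2 hs ⊢
    obtain ⟨t, ht⟩ : ∃ t : ℝ, t = (1 / 4) ^ (2 * r + 3) := ⟨_, rfl⟩
    have ht0 : 0 < t := by rw [ht]; positivity
    rw [← ht] at hT ⊢
    constructor
    · rw [pow_succ]; gcongr
    · have hM0 : 0 < Mn bad B r := by linarith
      have h3 : Tn bad B r ≤ 3 / 2 * t * Mn bad B r := by
        calc Tn bad B r ≤ t := hT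
          _ = 3 / 2 * t * (2 / 3) := by ring
          _ ≤ 3 / 2 * t * Mn bad B r := by gcongr
      calc mP bad B r * Mn bad B r * (1 - (σ + 3 / 2 * t))
          = mP bad B r * (1 - σ) * Mn bad B r - mP bad B r * (3 / 2 * t * Mn bad B r) := by ring
        _ ≤ mL bad B r * Mn bad B r - mP bad B r * Tn bad B r := by gcongr

/-- lower bound for the number of integers without bad primes in the blocks -/
theorem blocks_bound (hper : Per bad) (S : ℕ) (B : ℕ → Finset ℕ) (r : ℕ)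
    (hB : ∀ i, i < r → ∀ q ∈ B i, q.Prime) (hdisj : ∀ i, i < r → Disjoint (B i) (Qs B i))
    (hL : ∀ i, i < r → ∑ q ∈ B i, (rho bad q : ℝ) / q ≤ 1 / 4) :
    S * ((2 / 3 : ℝ) ^ r / 2) - (r + 1) * eP bad B r
      ≤ ∑ s ∈ range S, ∏ i ∈ range r, Zf bad (B i) s := by
  obtain ⟨_, h2⟩ := approx_all hper S B r hB hdisj
  obtain ⟨h3, h4⟩ := means (bad := bad) B r hL
  have h5 := (abs_le.1 h2.total).1
  have h6 : ∑ s ∈ range S, Lf bad B r s ≤ ∑ s ∈ range S, ∏ i ∈ range r, Zf bad (B i) s :=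
    sum_le_sum fun s _ => (pointwise B r s).1
  have h7 := geom16 r
  have h8 : (2 / 3 : ℝ) ^ r / 2 ≤ mL bad B r := by
    refine le_trans ?_ h4
    have h9 : (0 : ℝ) < (2 / 3) ^ r := by positivity
    calc (2 / 3 : ℝ) ^ r / 2 = (2 / 3) ^ r * (1 / 2) := by ring
      _ ≤ mP bad B r * (1 - ∑ i ∈ range r, (3 / 2 : ℝ) * (1 / 4) ^ (2 * i + 3)) := by
          gcongr
          · exact h9.le.trans h3
          · linarith
  have h10 : (S : ℝ) * ((2 / 3 : ℝ) ^ r / 2) ≤ S * mL bad B r := by gcongr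
  linarith

end Pool.Agent.H6.Hooley
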