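import Mathlib
import Pool.Agent.CoprimeSieve.Mertens
import Pool.Agent.H6.Hooley3

set_option autoImplicit false

/-!
# The Brun-Hooley sieve, part 4: the sieve bound
-/

open Finset

namespace Pool.Agent.H6.Hooley

open Pool.Agent.CoprimeSieve

variable {bad : ℕ → ℕ → Prop}

/-- thresholds -/
noncomputable def yt (θ lam : ℝ) (i : ℕ) : ℝ := Real.exp (θ ^ i * lam)

/-- blocks of primes -/
noncomputable def Bt (θ lam : ℝ) (i : ℕ) : Finset ℕ :=
  (pr (yt θ lam i)).filter (fun p : ℕ => yt θ lam (i + 1) < (p : ℝ))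

theorem mem_Bt {θ lam : ℝ} {i q : ℕ} :
    q ∈ Bt θ lam i ↔ q.Prime ∧ (q : ℝ) ≤ yt θ lam i ∧ yt θ lam (i + 1) < q := by
  rw [Bt, mem_filter, mem_pr, and_assoc]

theorem yt_anti {θ lam : ℝ} (h0 : 0 ≤ θ) (h1 : θ ≤ 1) (hl : 0 ≤ lam) {i j : ℕ} (hij : i ≤ j) :
    yt θ lam j ≤ yt θ lam i := by
  unfold yt
  apply Real.exp_le_exp.2
  apply mul_le_mul_of_nonneg_right _ hl
  exact pow_le_pow_of_le_one h0 h1 hij

theorem Qs_lt {θ lam : ℝ} (h0 : 0 ≤ θ) (h1 : θ ≤ 1) (hl : 0 ≤ lam) (i : ℕ) :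
    ∀ q ∈ Qs (Bt θ lam) i, yt θ lam i < q := by
  induction i with
  | zero => simp [Qs]
  | succ i ih =>
    intro q hq
    rw [Qs, mem_union] at hq
    rcases hq with hq | hq
    · exact lt_of_le_of_lt (yt_anti h0 h1 hl (by omega)) (ih q hq)
    · exact (mem_Bt.1 hq).2.2

theorem Bt_disj {θ lam : ℝ} (h0 : 0 ≤ θ) (h1 : θ ≤ 1) (hl : 0 ≤ lam) (i : ℕ) :
    Disjoint (Bt θ lam i) (Qs (Bt θ lam) i) := by
  rw [disjoint_left]
  intro q hq hq'
  have h2 := Qs_lt h0 h1 hl i q hq'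
  have h3 := (mem_Bt.1 hq).2.1
  linarith

theorem card_pr_le (x : ℝ) (hx : 0 ≤ x) : ((pr x).card : ℝ) ≤ x := by
  unfold pr
  have h1 : ((Icc 1 ⌊x⌋₊).filter Nat.Prime).card ≤ ⌊x⌋₊ := by
    refine (card_filter_le _ _).trans ?_
    rw [Nat.card_Icc]; omega
  calc (((Icc 1 ⌊x⌋₊).filter Nat.Prime).card : ℝ) ≤ (⌊x⌋₊ : ℝ) := by exact_mod_cast h1
    _ ≤ x := Nat.floor_le hx

theorem sum_arith_geom {θ : ℝ} (h0 : 0 ≤ θ) (h1 : θ < 1) (r : ℕ) :
    ∑ i ∈ range r, ((i : ℝ) + 1) * θ ^ i ≤ 1 / (1 - θ) ^ 2 := by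
  have h2 : (1 : ℝ) - θ ≠ 0 := by linarith
  have h : ∀ r : ℕ, ∑ i ∈ range r, ((i : ℝ) + 1) * θ ^ i
      = (1 - ((r : ℝ) + 1) * θ ^ r + r * θ ^ (r + 1)) / (1 - θ) ^ 2 := by
    intro r
    induction r with
    | zero => simp
    | succ r ih =>
      rw [sum_range_succ, ih]
      push_cast
      field_simp
      ring
  rw [h]
  have h3 : 0 < (1 - θ) ^ 2 := by
    have : 0 < 1 - θ := by linarith
    positivity
  apply div_le_div_of_nonneg_right _ h3.le
  have h4 : (r : ℝ) * θ ^ (r + 1) ≤ ((r : ℝ) + 1) * θ ^ r := by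
    rw [pow_succ]
    have h5 : 0 ≤ θ ^ r := by positivity
    have h6 : θ ^ r * θ ≤ θ ^ r * 1 := by gcongr
    have h7 : (0 : ℝ) ≤ r := Nat.cast_nonneg r
    nlinarith
  linarith

/-- bound for the error term -/
theorem eP_le {κ : ℕ} {θ lam lam0 : ℝ} (h0 : 0 < θ) (h1 : θ < 1) (hl0 : 0 ≤ lam)
    (hκ : (κ : ℝ) + 1 ≤ Real.exp lam0) (hrho : ∀ q : ℕ, q.Prime → rho bad q ≤ κ) (r : ℕ)
    (hr : ∀ i, i ≤ r → lam0 ≤ θ ^ i * lam) :
    eP bad (Bt θ lam) r ≤ Real.exp (6 / (1 - θ) ^ 2 * lam) := by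
  have hstep : ∀ r : ℕ, (∀ i, i ≤ r → lam0 ≤ θ ^ i * lam) →
      eP bad (Bt θ lam) r ≤ Real.exp (6 * lam * ∑ i ∈ range r, ((i : ℝ) + 1) * θ ^ i) := by
    intro r
    induction r with
    | zero => intro _; simp [eP]
    | succ r ih =>
      intro hr
      rw [eP, sum_range_succ, mul_add, Real.exp_add]
      have hih := ih (fun i hi => hr i (by omega))
      obtain ⟨y, hy⟩ : ∃ y, y = yt θ lam r := ⟨_, rfl⟩
      have hyk : (κ : ℝ) + 1 ≤ y := by
        rw [hy, yt]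
        exact hκ.trans (Real.exp_le_exp.2 (hr r (by omega)))
      have hy0 : 0 ≤ y := by
        have : (0 : ℝ) ≤ κ := Nat.cast_nonneg _
        linarith
      have hsum : ∑ q ∈ Bt θ lam r, (rho bad q : ℝ) ≤ κ * y := by
        calc ∑ q ∈ Bt θ lam r, (rho bad q : ℝ) ≤ ∑ q ∈ Bt θ lam r, (κ : ℝ) := by
              apply sum_le_sum
              intro q hq
              exact_mod_cast hrho q (mem_Bt.1 hq).1
          _ = (Bt θ lam r).card * κ := by rw [sum_const, nsmul_eq_mul]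
          _ ≤ (pr y).card * κ := by
              gcongr
              rw [Bt, hy]; exact filter_subset _ _
          _ ≤ y * κ := by
              gcongr
              exact card_pr_le y hy0
          _ = κ * y := by ring
      have h2 : 1 + ∑ q ∈ Bt θ lam r, (rho bad q : ℝ) ≤ y ^ 2 := by
        have hκ0 : (0 : ℝ) ≤ κ := Nat.cast_nonneg _
        nlinarith
      have h3 : (0 : ℝ) ≤ 1 + ∑ q ∈ Bt θ lam r, (rho bad q : ℝ) := by positivity
      have h4 : (1 + ∑ q ∈ Bt θ lam r, (rho bad q : ℝ)) ^ (2 * r + 3)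
          ≤ Real.exp (6 * lam * (((r : ℝ) + 1) * θ ^ r)) := by
        calc (1 + ∑ q ∈ Bt θ lam r, (rho bad q : ℝ)) ^ (2 * r + 3)
            ≤ (y ^ 2) ^ (2 * r + 3) := by gcongr
          _ = Real.exp (θ ^ r * lam * (2 * (2 * r + 3))) := by
              rw [hy, yt, ← Real.exp_nat_mul, ← Real.exp_nat_mul]
              congr 1
              push_cast; ring
          _ ≤ _ := by
              apply Real.exp_le_exp.2
              have h5 : 0 ≤ θ ^ r * lam := by positivity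
              have h6 : (2 : ℝ) * (2 * r + 3) ≤ 6 * (r + 1) := by
                have : (0 : ℝ) ≤ r := Nat.cast_nonneg r
                linarith
              calc θ ^ r * lam * (2 * (2 * r + 3)) ≤ θ ^ r * lam * (6 * (r + 1)) := by gcongr
                _ = _ := by ring
      exact mul_le_mul hih h4 (by positivity) (Real.exp_pos _).le
  refine (hstep r hr).trans ?_
  apply Real.exp_le_exp.2
  have h3 := sum_arith_geom h0.le h1 r
  calc 6 * lam * ∑ i ∈ range r, ((i : ℝ) + 1) * θ ^ i ≤ 6 * lam * (1 / (1 - θ) ^ 2) := by gcongr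
    _ = _ := by ring

/-- the number of blocks -/
theorem exists_r {θ lam lam0 : ℝ} (h0 : 0 < θ) (h1 : θ < 1) (hl0 : 0 < lam0) (hl : lam0 ≤ lam) :
    ∃ r : ℕ, θ ^ r * lam ≤ lam0 / θ ∧ ∀ i, i ≤ r → lam0 ≤ θ ^ i * lam := by
  classical
  have hlam : 0 < lam := lt_of_lt_of_le hl0 hl
  have hex : ∃ r : ℕ, θ ^ r * lam ≤ lam0 / θ := by
    obtain ⟨n, hn⟩ := exists_pow_lt_of_lt_one (show 0 < lam0 / θ / lam by positivity) h1
    refine ⟨n, ?_⟩
    rw [lt_div_iff₀ hlam] at hn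
    exact hn.le
  refine ⟨Nat.find hex, Nat.find_spec hex, ?_⟩
  have hr : lam0 ≤ θ ^ (Nat.find hex) * lam := by
    rcases Nat.eq_zero_or_pos (Nat.find hex) with h | h
    · rw [h]; simpa using hl
    · obtain ⟨m, hm⟩ : ∃ m, Nat.find hex = m + 1 := ⟨_, (Nat.succ_pred_eq_of_pos h).symm⟩
      have h2 := Nat.find_min hex (m := m) (by omega)
      push Not at h2
      rw [hm, pow_succ]
      rw [div_lt_iff₀ h0] at h2
      linarith
  intro i hi
  refine hr.trans ?_
  apply mul_le_mul_of_nonneg_right _ hlam.le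
  exact pow_le_pow_of_le_one h0.le h1.le hi

/-- the sieve, in terms of the logarithm of the sifting limit -/
theorem hooley_real (κ : ℕ) (hκ : 1 ≤ κ) : ∃ (A lam0 lam1 : ℝ), 1 ≤ A ∧ 1 ≤ lam0 ∧
    ∀ bad : ℕ → ℕ → Prop, Per bad → (∀ q : ℕ, q.Prime → rho bad q ≤ κ) →
    ∀ (S : ℕ) (lam : ℝ), lam0 ≤ lam →
      ∃ F : ℕ → ℝ, (∀ s, F s = 0 ∨ F s = 1) ∧
        (∀ s, F s = 1 → ∀ q : ℕ, q.Prime → lam1 < Real.log q → Real.log q ≤ lam → ¬ bad q s) ∧
        S * ((1 / lam) ^ (4 * κ) / 2) - 9 * κ * Real.exp (A * lam) ≤ ∑ s ∈ range S, F s := by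
  obtain ⟨C0, hC0, hM⟩ := mertens_second_upper
  have hκ' : (1 : ℝ) ≤ κ := by exact_mod_cast hκ
  have hκ0 : (0 : ℝ) < κ := by linarith
  obtain ⟨η, hη⟩ : ∃ η : ℝ, η = 1 / (8 * κ) := ⟨_, rfl⟩
  have hη0 : 0 < η := by rw [hη]; positivity
  obtain ⟨θ, hθ⟩ : ∃ θ : ℝ, θ = Real.exp (-η) := ⟨_, rfl⟩
  have hθ0 : 0 < θ := by rw [hθ]; exact Real.exp_pos _
  have hθ1 : θ < 1 := by rw [hθ, Real.exp_lt_one_iff]; linarith
  obtain ⟨lam0, hlam0⟩ : ∃ lam0 : ℝ, lam0 = 8 * κ * C0 + κ + 1 := ⟨_, rfl⟩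
  have hl1 : 1 ≤ lam0 := by
    rw [hlam0]
    have : 0 ≤ 8 * κ * C0 := by positivity
    linarith
  refine ⟨6 / (1 - θ) ^ 2 + 1, lam0, lam0 / θ, ?_, hl1, ?_⟩
  · have : 0 ≤ 6 / (1 - θ) ^ 2 := by positivity
    linarith
  intro bad hper hrho S lam hlam
  have hlam1 : 1 ≤ lam := hl1.trans hlam
  have hlamp : 0 < lam := by linarith
  obtain ⟨r, hr1, hr2⟩ := exists_r hθ0 hθ1 (by linarith : 0 < lam0) hlam
  refine ⟨fun s => ∏ i ∈ range r, Zf bad (Bt θ lam i) s, ?_, ?_, ?_⟩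
  · intro s
    have hZ : ∀ i, Zf bad (Bt θ lam i) s = 0 ∨ Zf bad (Bt θ lam i) s = 1 := by
      intro i; unfold Zf; split_ifs <;> simp
    clear hr1 hr2
    induction r with
    | zero => right; simp
    | succ r ih =>
      simp only at ih ⊢
      rw [prod_range_succ]
      rcases ih with h | h <;> rcases hZ r with h' | h' <;> rw [h, h'] <;> simp
  · intro s hs q hq hq1 hq2 hbad
    have hq0 : (0 : ℝ) < q := by exact_mod_cast hq.pos
    -- find the block
    have hex : ∃ j : ℕ, yt θ lam j < q := by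
      refine ⟨r, ?_⟩
      rw [yt, ← Real.lt_log_iff_exp_lt hq0]
      linarith
    classical
    obtain ⟨j, hj⟩ : ∃ j, j = Nat.find hex := ⟨_, rfl⟩
    have hj1 : yt θ lam j < q := by rw [hj]; exact Nat.find_spec hex
    have hjr : j ≤ r := by
      rw [hj]
      apply Nat.find_min'
      rw [yt, ← Real.lt_log_iff_exp_lt hq0]
      linarith
    have hj0 : j ≠ 0 := by
      intro h0
      rw [h0, yt, pow_zero, one_mul, ← Real.lt_log_iff_exp_lt hq0] at hj1
      linarith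
    obtain ⟨i, hi⟩ : ∃ i, j = i + 1 := ⟨_, (Nat.succ_pred_eq_of_ne_zero hj0).symm⟩
    have hi1 : (q : ℝ) ≤ yt θ lam i := by
      have := Nat.find_min hex (m := i) (by omega)
      push Not at this
      exact this
    have hmem : q ∈ Bt θ lam i := mem_Bt.2 ⟨hq, hi1, by rw [← hi]; exact hj1⟩
    have hZ : Zf bad (Bt θ lam i) s = 0 := by
      unfold Zf
      rw [if_neg]
      intro h
      exact h q hmem hbad
    simp only at hs
    rw [prod_eq_zero (mem_range.2 (by omega : i < r)) hZ] at hs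
    norm_num at hs
  · have hL : ∀ i, i < r → ∑ q ∈ Bt θ lam i, (rho bad q : ℝ) / q ≤ 1 / 4 := by
      intro i hi
      have ha := hr2 (i + 1) (by omega)
      have hlogb : Real.log (yt θ lam i) = θ ^ i * lam := by rw [yt, Real.log_exp]
      have hloga : Real.log (yt θ lam (i + 1)) = θ ^ (i + 1) * lam := by rw [yt, Real.log_exp]
      have h2 : (2 : ℝ) ≤ yt θ lam (i + 1) := by
        rw [yt]
        have h3 := Real.add_one_le_exp (θ ^ (i + 1) * lam)
        linarith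
      have h3 := hM (yt θ lam (i + 1)) (yt θ lam i) h2 (yt_anti hθ0.le hθ1.le hlamp.le (by omega))
      rw [hlogb, hloga] at h3
      have h4 : θ ^ i * lam / (θ ^ (i + 1) * lam) = Real.exp η := by
        rw [pow_succ, hθ, Real.exp_neg]
        have : Real.exp η ≠ 0 := (Real.exp_pos η).ne'
        field_simp
      rw [h4, Real.log_exp] at h3
      have h5 : C0 / (θ ^ (i + 1) * lam) ≤ 1 / (8 * κ) := by
        rw [div_le_div_iff₀ (by linarith) (by positivity)]
        calc C0 * (8 * κ) = 8 * κ * C0 := by ring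
          _ ≤ lam0 := by rw [hlam0]; linarith
          _ ≤ θ ^ (i + 1) * lam := ha
          _ = 1 * (θ ^ (i + 1) * lam) := by ring
      calc ∑ q ∈ Bt θ lam i, (rho bad q : ℝ) / q ≤ ∑ q ∈ Bt θ lam i, κ * (1 / (q : ℝ)) := by
            apply sum_le_sum
            intro q hq
            have h6 : (rho bad q : ℝ) ≤ κ := by exact_mod_cast hrho q (mem_Bt.1 hq).1
            rw [mul_one_div]; gcongr
        _ = κ * ∑ q ∈ Bt θ lam i, 1 / (q : ℝ) := by rw [mul_sum]
        _ ≤ κ * (η + C0 / (θ ^ (i + 1) * lam)) := by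
            gcongr
            exact h3
        _ ≤ κ * (1 / (8 * κ) + 1 / (8 * κ)) := by
            rw [hη]; gcongr
        _ = 1 / 4 := by field_simp; norm_num
    have hmain := blocks_bound hper S (Bt θ lam) r (fun i _ q hq => (mem_Bt.1 hq).1)
      (fun i _ => Bt_disj hθ0.le hθ1.le hlamp.le i) hL
    refine le_trans ?_ hmain
    have hrr := hr2 r le_rfl
    have hpow : 1 / lam ≤ θ ^ r := by
      rw [div_le_iff₀ hlamp]; linarith
    have h23 : (1 / lam) ^ (4 * κ) ≤ (2 / 3 : ℝ) ^ r := by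
      have hθ4 : θ ^ (4 * κ) ≤ 2 / 3 := by
        have e1 : θ ^ (4 * κ) = Real.exp (-(1 / 2)) := by
          rw [hθ, ← Real.exp_nat_mul]
          congr 1
          rw [hη]; push_cast; field_simp; norm_num
        rw [e1, Real.exp_neg, inv_le_comm₀ (Real.exp_pos _) (by norm_num)]
        have := Real.add_one_le_exp (1 / 2 : ℝ)
        norm_num at this ⊢
        linarith
      calc (1 / lam) ^ (4 * κ) ≤ (θ ^ r) ^ (4 * κ) := by gcongr
        _ = (θ ^ (4 * κ)) ^ r := by rw [← pow_mul, ← pow_mul, mul_comm]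
        _ ≤ (2 / 3 : ℝ) ^ r := by gcongr
    have hκe : (κ : ℝ) + 1 ≤ Real.exp lam0 := by
      have := Real.add_one_le_exp lam0
      have h8 : 0 ≤ 8 * κ * C0 := by positivity
      rw [hlam0] at this ⊢
      linarith
    have heP := eP_le (bad := bad) hθ0 hθ1 hlamp.le hκe hrho r hr2
    have hrle : (r : ℝ) + 1 ≤ 9 * κ * Real.exp lam := by
      have e1 : θ ^ r = Real.exp (-(η * r)) := by
        rw [hθ, ← Real.exp_nat_mul]; congr 1; ring
      rw [e1, Real.exp_neg] at hpow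
      have h9 : Real.exp (η * r) ≤ lam := by
        rw [one_div, inv_le_inv₀ hlamp (Real.exp_pos _)] at hpow
        exact hpow
      have h10 := Real.add_one_le_exp (η * r)
      have h11 : η * r ≤ lam := by linarith
      have h12 : (r : ℝ) ≤ 8 * κ * lam := by
        rw [hη] at h11
        have : (r : ℝ) = 8 * κ * (1 / (8 * κ) * r) := by field_simp
        rw [this]; gcongr
      have h13 : lam ≤ Real.exp lam := by
        have := Real.add_one_le_exp lam
        linarith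
      calc (r : ℝ) + 1 ≤ 8 * κ * lam + κ * lam := by
            have : 1 * 1 ≤ κ * lam := by gcongr
            linarith
        _ = 9 * κ * lam := by ring
        _ ≤ _ := by gcongr
    have hee : ((r : ℝ) + 1) * eP bad (Bt θ lam) r
        ≤ 9 * κ * Real.exp ((6 / (1 - θ) ^ 2 + 1) * lam) := by
      calc ((r : ℝ) + 1) * eP bad (Bt θ lam) r
          ≤ (9 * κ * Real.exp lam) * Real.exp (6 / (1 - θ) ^ 2 * lam) := by
            apply mul_le_mul hrle heP (eP_nonneg _ _) (by positivity)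
        _ = _ := by rw [mul_assoc, ← Real.exp_add]; congr 2; ring
    have hS0 : (0 : ℝ) ≤ S := Nat.cast_nonneg S
    have : (S : ℝ) * ((1 / lam) ^ (4 * κ) / 2) ≤ S * ((2 / 3 : ℝ) ^ r / 2) := by gcongr
    linarith

end Pool.Agent.H6.Hooley
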