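import Mathlib
import Pool.Agent.H6.Hooley4

set_option autoImplicit false

/-!
# The Brun-Hooley sieve: almost all small primes can be avoided
-/

open Finset

namespace Pool.Agent.H6.Hooley

theorem log_ev (k : ℕ) (c : ℝ) (hc : 0 < c) :
    ∀ᶠ S : ℕ in Filter.atTop, c * Real.log S ^ k ≤ √(S : ℝ) := by
  have h1 := Real.isLittleO_pow_log_id_atTop (n := 2 * k)
  have h2 := h1.def (show (0 : ℝ) < 1 / c ^ 2 by positivity)
  have h3 := tendsto_natCast_atTop_atTop (R := ℝ) |>.eventually h2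
  filter_upwards [h3, Filter.eventually_ge_atTop 1] with S hS hS1
  have hS1' : (1 : ℝ) ≤ S := by exact_mod_cast hS1
  have hL : 0 ≤ Real.log S := Real.log_nonneg hS1'
  rw [Real.norm_of_nonneg (by positivity), id, Real.norm_of_nonneg (by linarith)] at hS
  apply Real.le_sqrt_of_sq_le
  have e : (c * Real.log S ^ k) ^ 2 = c ^ 2 * Real.log S ^ (2 * k) := by ring
  rw [e]
  have hc2 : 0 < c ^ 2 := by positivity
  calc c ^ 2 * Real.log S ^ (2 * k) ≤ c ^ 2 * (1 / c ^ 2 * S) := by gcongr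
    _ = (S : ℝ) := by field_simp

open scoped Classical in
/-- **Brun-Hooley sieve.** If every prime `q > T` excludes at most `κ` residue classes, then at
least `S / (log S) ^ C` of the integers `s < S` avoid the excluded classes of all primes
`q > T` with `q ^ C ≤ S`. -/
theorem hooley (κ : ℕ) : ∃ C T S0 : ℕ, 1 ≤ C ∧ ∀ bad : ℕ → ℕ → Prop, Per bad →
    (∀ q : ℕ, q.Prime → T < q → rho bad q ≤ κ) → ∀ S : ℕ, S0 ≤ S →
    (S : ℝ) / Real.log S ^ C ≤
      (((range S).filter (fun s => ∀ q : ℕ, q.Prime → T < q → q ^ C ≤ S → ¬ bad q s)).card : ℕ) := by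
  obtain ⟨k, hk⟩ : ∃ k, k = κ + 1 := ⟨_, rfl⟩
  obtain ⟨A, lam0, lam1, hA, hlam0, H⟩ := hooley_real k (by omega)
  have hk1 : (1 : ℝ) ≤ k := by rw [hk]; push_cast; linarith [Nat.cast_nonneg (α := ℝ) κ]
  obtain ⟨C, hC⟩ : ∃ C : ℕ, C = ⌈2 * A⌉₊ + (4 * k + 1) := ⟨_, rfl⟩
  have hC2 : 2 * A ≤ C := by
    rw [hC]; push_cast
    have := Nat.le_ceil (2 * A)
    linarith
  have hC1 : (1 : ℝ) ≤ C := by linarith
  have hC0 : (0 : ℝ) < C := by linarith
  have hev : ∀ᶠ S : ℕ in Filter.atTop, (36 * k * Real.log S ^ (4 * k) ≤ √(S : ℝ)) ∧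
      max 4 (C * lam0) ≤ Real.log S ∧ 1 ≤ S := by
    refine (log_ev (4 * k) (36 * k) (by positivity)).and
      (Filter.Eventually.and ?_ (Filter.eventually_ge_atTop 1))
    exact (Real.tendsto_log_atTop.comp tendsto_natCast_atTop_atTop).eventually_ge_atTop _
  obtain ⟨S0, hS0⟩ := Filter.eventually_atTop.1 hev
  refine ⟨C, ⌈Real.exp lam1⌉₊, S0, by omega, ?_⟩
  intro bad hper hrho S hS
  obtain ⟨h1, h2, h3⟩ := hS0 S hS
  have hS1 : (1 : ℝ) ≤ S := by exact_mod_cast h3
  have hSp : (0 : ℝ) < S := by linarith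
  obtain ⟨L, hL⟩ : ∃ L, L = Real.log S := ⟨_, rfl⟩
  rw [← hL] at h1 h2 ⊢
  have hL4 : 4 ≤ L := (le_max_left _ _).trans h2
  have hLl : C * lam0 ≤ L := (le_max_right _ _).trans h2
  have hLp : 0 < L := by linarith
  obtain ⟨T, hT⟩ : ∃ T, T = ⌈Real.exp lam1⌉₊ := ⟨_, rfl⟩
  rw [← hT] at hrho ⊢
  have hTe : Real.exp lam1 ≤ T := by rw [hT]; exact Nat.le_ceil _
  obtain ⟨bad', hbad'⟩ : ∃ bad' : ℕ → ℕ → Prop, bad' = fun q s => bad q s ∧ T < q := ⟨_, rfl⟩
  have hper' : Per bad' := by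
    intro q s
    rw [hbad']
    simp only [hper q s]
  have hrho' : ∀ q : ℕ, q.Prime → rho bad' q ≤ k := by
    intro q hq
    rcases Nat.lt_or_ge T q with h | h
    · have h4 : rho bad' q ≤ rho bad q := by
        apply card_le_card
        intro s hs
        rw [mem_filter] at hs ⊢
        rw [hbad'] at hs
        exact ⟨hs.1, hs.2.1⟩
      have := hrho q hq h
      omega
    · have h4 : rho bad' q = 0 := by
        rw [rho, card_eq_zero, filter_eq_empty_iff]
        intro s _ hs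
        rw [hbad'] at hs
        have := hs.2
        omega
      omega
  obtain ⟨lam, hlam⟩ : ∃ lam, lam = L / C := ⟨_, rfl⟩
  have hlam0' : lam0 ≤ lam := by rw [hlam, le_div_iff₀ hC0]; linarith
  obtain ⟨F, hF1, hF2, hF3⟩ := H bad' hper' hrho' S lam hlam0'
  have hcount : ∑ s ∈ range S, F s ≤
      (((range S).filter (fun s => ∀ q : ℕ, q.Prime → T < q → q ^ C ≤ S → ¬ bad q s)).card : ℕ) := by
    rw [card_filter]
    push_cast
    apply sum_le_sum
    intro s _
    split_ifs with hs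
    · rcases hF1 s with h | h
      · rw [h]; norm_num
      · rw [h]
    · rcases hF1 s with h | h
      · rw [h]
      · exfalso
        apply hs
        intro q hq hTq hqS hb
        have hq0 : (0 : ℝ) < q := by exact_mod_cast hq.pos
        refine hF2 s h q hq ?_ ?_ (by rw [hbad']; exact ⟨hb, hTq⟩)
        · rw [Real.lt_log_iff_exp_lt hq0]
          have : (T : ℝ) < q := by exact_mod_cast hTq
          linarith
        · rw [hlam, le_div_iff₀ hC0, hL]
          have h5 : ((q : ℝ)) ^ C ≤ S := by exact_mod_cast hqS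
          have h6 := Real.log_le_log (by positivity) h5
          rw [Real.log_pow] at h6
          linarith
  refine le_trans ?_ hcount
  refine le_trans ?_ hF3
  have hlamp : 0 < lam := by rw [hlam]; positivity
  have e1 : 1 / L ^ (4 * k) ≤ (1 / lam) ^ (4 * k) := by
    rw [hlam, one_div_pow]
    apply one_div_le_one_div_of_le (by positivity)
    gcongr
    rw [div_le_iff₀ hC0]
    nlinarith
  have e2 : Real.exp (A * lam) ≤ √(S : ℝ) := by
    have h7 : √(S : ℝ) = Real.exp (L / 2) := by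
      rw [Real.sqrt_eq_rpow, Real.rpow_def_of_pos hSp, hL]; congr 1; ring
    rw [h7]
    apply Real.exp_le_exp.2
    rw [hlam, mul_div_assoc', div_le_div_iff₀ hC0 two_pos]
    nlinarith
  have e3 : √(S : ℝ) * √(S : ℝ) = S := Real.mul_self_sqrt hSp.le
  have e4 : (S : ℝ) / L ^ C ≤ S / (L ^ (4 * k) * 4) := by
    apply div_le_div_of_nonneg_left hSp.le (by positivity)
    calc L ^ (4 * k) * 4 ≤ L ^ (4 * k) * L := by gcongr
      _ = L ^ (4 * k + 1) := by ring
      _ ≤ L ^ C := by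
          apply pow_le_pow_right₀ (by linarith)
          omega
  have e5 : 9 * k * √(S : ℝ) ≤ S / (L ^ (4 * k) * 4) := by
    rw [le_div_iff₀ (by positivity)]
    calc 9 * k * √(S : ℝ) * (L ^ (4 * k) * 4) = (36 * k * L ^ (4 * k)) * √(S : ℝ) := by ring
      _ ≤ √(S : ℝ) * √(S : ℝ) := by gcongr
      _ = S := e3
  have e6 : (S : ℝ) * (1 / L ^ (4 * k) / 2) = S / (L ^ (4 * k) * 4) + S / (L ^ (4 * k) * 4) := by
    field_simp; ring
  calc (S : ℝ) / L ^ C ≤ S / (L ^ (4 * k) * 4) := e4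
    _ = S / (L ^ (4 * k) * 4) + S / (L ^ (4 * k) * 4) - S / (L ^ (4 * k) * 4) := by ring
    _ ≤ S / (L ^ (4 * k) * 4) + S / (L ^ (4 * k) * 4) - 9 * k * √(S : ℝ) := by gcongr
    _ = S * (1 / L ^ (4 * k) / 2) - 9 * k * √(S : ℝ) := by rw [e6]
    _ ≤ S * ((1 / lam) ^ (4 * k) / 2) - 9 * k * Real.exp (A * lam) := by gcongr

end Pool.Agent.H6.Hooley
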