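import Mathlib
import Pool.Agent.H6.Selberg

/-!
Upper bound for the number of `q ≤ X` with `q` and `m q + 1` both prime.
-/

open Finset BoundingSieve ArithmeticFunction
open scoped ArithmeticFunction.Moebius ArithmeticFunction.zeta

namespace Pool.Agent.H6

noncomputable section

theorem card_modEq_Icc (X d c : ℕ) (hd : 0 < d) :
    |(((Finset.Icc 1 X).filter (fun n => n ≡ c [MOD d])).card : ℝ) - (X : ℝ) / d| ≤ 1 := by
  have h1 : Finset.Icc 1 X = Finset.Ioc 0 X := by
    ext x
    simp only [Finset.mem_Icc, Finset.mem_Ioc]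
    omega
  rw [h1]
  have h2 := Nat.Ioc_filter_modEq_card 0 X hd c
  have hdq : (0 : ℚ) < d := by exact_mod_cast hd
  have h3 : (⌊((0 : ℕ) - (c : ℚ)) / (d : ℚ)⌋ : ℤ) ≤ ⌊((X : ℚ) - c) / (d : ℚ)⌋ := by
    apply Int.floor_le_floor
    gcongr
    exact_mod_cast Nat.zero_le X
  rw [max_eq_left (by linarith)] at h2
  have h4 : ((((Finset.Ioc 0 X).filter (fun n => n ≡ c [MOD d])).card : ℤ) : ℚ) =
      ((⌊((X : ℚ) - c) / (d : ℚ)⌋ - ⌊((0 : ℕ) - (c : ℚ)) / (d : ℚ)⌋ : ℤ) : ℚ) := by
    rw [h2]
  push_cast at h4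
  have e1 := Int.floor_le (((X : ℚ) - c) / (d : ℚ))
  have e2 := Int.lt_floor_add_one (((X : ℚ) - c) / (d : ℚ))
  have e3 := Int.floor_le (((0 : ℚ) - (c : ℚ)) / (d : ℚ))
  have e4 := Int.lt_floor_add_one (((0 : ℚ) - (c : ℚ)) / (d : ℚ))
  have e5 : (X : ℚ) / d = ((X : ℚ) - c) / (d : ℚ) - ((0 : ℚ) - (c : ℚ)) / (d : ℚ) := by
    field_simp
    ring
  have key : |(((Finset.Ioc 0 X).filter (fun n => n ≡ c [MOD d])).card : ℚ) - (X : ℚ) / d| ≤ 1 := by
    rw [h4, abs_le]
    constructor <;> linarith
  have := (Rat.cast_le (K := ℝ)).mpr key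
  push_cast at this
  simpa using this

/-- the counting of `n ≤ X` with `d ∣ n (m n + 1)` for squarefree `d` -/
theorem card_dvd_pair (m X d : ℕ) (hd : Squarefree d) :
    |(((Finset.Icc 1 X).filter (fun n => d ∣ n * (m * n + 1))).card : ℝ) -
      (((d.divisors.filter (fun b => Nat.Coprime b m)).card : ℝ) * ((X : ℝ) / d))| ≤
      ((d.divisors.filter (fun b => Nat.Coprime b m)).card : ℝ) := by
  have hd0 : d ≠ 0 := hd.ne_zero
  have hdpos : 0 < d := Nat.pos_of_ne_zero hd0
  -- decomposition
  have hdec : ∀ n : ℕ, (if d ∣ n * (m * n + 1) then (1 : ℝ) else 0) =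
      ∑ b ∈ d.divisors.filter (fun b => Nat.Coprime b m),
        if (d / b ∣ n ∧ b ∣ m * n + 1) then (1 : ℝ) else 0 := by
    intro n
    have hcop : Nat.Coprime n (m * n + 1) := by
      have : Nat.Coprime n (1 + m * n) := by
        rw [Nat.coprime_add_mul_right_right]
        exact Nat.coprime_one_right n
      rwa [add_comm] at this
    split_ifs with h
    · set b := Nat.gcd d (m * n + 1) with hb
      have hbd : b ∣ d := Nat.gcd_dvd_left _ _
      have hbm : Nat.Coprime b m := by
        have h1 : b ∣ m * n + 1 := Nat.gcd_dvd_right _ _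
        have h2 : Nat.Coprime (m * n + 1) m := by
          have : Nat.Coprime (1 + m * n) m := by
            rw [Nat.coprime_add_mul_left_left]
            exact Nat.coprime_one_left m
          rwa [add_comm] at this
        exact Nat.Coprime.coprime_dvd_left h1 h2
      have hmem : b ∈ d.divisors.filter (fun b => Nat.Coprime b m) := by
        rw [Finset.mem_filter, Nat.mem_divisors]
        exact ⟨⟨hbd, hd0⟩, hbm⟩
      rw [Finset.sum_eq_single_of_mem b hmem]
      · rw [if_pos]
        refine ⟨?_, Nat.gcd_dvd_right _ _⟩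
        have hcop2 : Nat.Coprime (d / b) (m * n + 1) := by
          apply Nat.Coprime.symm
          apply Nat.coprime_of_dvd
          intro p hp h1 h2
          have h3 : p ∣ d := h2.trans (Nat.div_dvd_of_dvd hbd)
          have h4 : p ∣ b := Nat.dvd_gcd h3 h1
          have h5 : p * p ∣ d := by
            have := Nat.mul_dvd_mul h4 h2
            rwa [Nat.mul_div_cancel' hbd] at this
          have := hd p h5
          exact hp.one_lt.ne' (Nat.isUnit_iff.mp this)
        have h6 : d / b ∣ n * (m * n + 1) := (Nat.div_dvd_of_dvd hbd).trans h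
        exact hcop2.dvd_of_dvd_mul_right h6
      · intro b' hb' hne
        rw [Finset.mem_filter, Nat.mem_divisors] at hb'
        rw [if_neg]
        rintro ⟨h1, h2⟩
        apply hne
        have hb'b : b' ∣ b := Nat.dvd_gcd hb'.1.1 h2
        have hbb' : b ∣ b' := by
          have h7 : Nat.Coprime b (d / b') := by
            apply Nat.Coprime.coprime_dvd_left (Nat.gcd_dvd_right d (m * n + 1))
            apply Nat.Coprime.coprime_dvd_right h1
            exact hcop.symm
          have h8 : b ∣ (d / b') * b' := by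
            rw [Nat.div_mul_cancel hb'.1.1]
            exact hbd
          exact h7.dvd_of_dvd_mul_left h8
        exact Nat.dvd_antisymm hb'b hbb'
    · symm
      apply Finset.sum_eq_zero
      intro b hb
      rw [Finset.mem_filter, Nat.mem_divisors] at hb
      rw [if_neg]
      rintro ⟨h1, h2⟩
      apply h
      have := Nat.mul_dvd_mul h1 h2
      rwa [Nat.div_mul_cancel hb.1.1] at this
  -- each class
  have hclass : ∀ b ∈ d.divisors.filter (fun b => Nat.Coprime b m),
      |(∑ n ∈ Finset.Icc 1 X, if (d / b ∣ n ∧ b ∣ m * n + 1) then (1 : ℝ) else 0) - (X : ℝ) / d| ≤ 1 := by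
    intro b hb
    rw [Finset.mem_filter, Nat.mem_divisors] at hb
    obtain ⟨⟨hbd, _⟩, hbm⟩ := hb
    have hbpos : 0 < b := Nat.pos_of_dvd_of_pos hbd hdpos
    have hcop3 : Nat.Coprime (d / b) b := by
      apply Nat.coprime_of_squarefree_mul
      rwa [Nat.div_mul_cancel hbd]
    -- solve m n + 1 ≡ 0 mod b
    obtain ⟨r, hr⟩ : ∃ r : ℕ, m * r + 1 ≡ 0 [MOD b] := by
      have hu : IsUnit (m : ZMod b) := by
        rw [ZMod.isUnit_iff_coprime]
        exact hbm.symm
      obtain ⟨u, hu⟩ := hu
      haveI : NeZero b := ⟨hbpos.ne'⟩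
      refine ⟨(-(u⁻¹ : (ZMod b)ˣ) : ZMod b).val, ?_⟩
      rw [← ZMod.natCast_eq_natCast_iff]
      push_cast
      rw [ZMod.natCast_zmod_val, ← hu]
      simp
    obtain ⟨c, hc1, hc2⟩ := Nat.chineseRemainder hcop3 0 r
    have hiff : ∀ n : ℕ, (d / b ∣ n ∧ b ∣ m * n + 1) ↔ n ≡ c [MOD d] := by
      intro n
      have hd' : d = (d / b) * b := (Nat.div_mul_cancel hbd).symm
      constructor
      · rintro ⟨h1, h2⟩
        rw [hd', ← Nat.modEq_and_modEq_iff_modEq_mul hcop3]
        constructor
        · exact ((Nat.modEq_zero_iff_dvd).mpr h1).trans hc1.symm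
        · have h3 : m * n + 1 ≡ m * r + 1 [MOD b] := ((Nat.modEq_zero_iff_dvd).mpr h2).trans hr.symm
          have h4 : m * n ≡ m * r [MOD b] := Nat.ModEq.add_right_cancel' 1 h3
          have h5 : n ≡ r [MOD b] := Nat.ModEq.cancel_left_of_coprime (by rw [hbm]) h4
          exact h5.trans hc2.symm
      · intro h
        rw [hd', ← Nat.modEq_and_modEq_iff_modEq_mul hcop3] at h
        constructor
        · exact (Nat.modEq_zero_iff_dvd).mp (h.1.trans hc1)
        · apply (Nat.modEq_zero_iff_dvd).mp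
          have h5 : n ≡ r [MOD b] := h.2.trans hc2
          exact ((h5.mul_left m).add_right 1).trans hr
    simp_rw [hiff]
    rw [Finset.sum_boole]
    exact card_modEq_Icc X d c hdpos
  have hcount : (((Finset.Icc 1 X).filter (fun n => d ∣ n * (m * n + 1))).card : ℝ) =
      ∑ b ∈ d.divisors.filter (fun b => Nat.Coprime b m),
        ∑ n ∈ Finset.Icc 1 X, if (d / b ∣ n ∧ b ∣ m * n + 1) then (1 : ℝ) else 0 := by
    rw [← Finset.sum_boole]
    simp_rw [hdec]
    rw [Finset.sum_comm]
  rw [hcount]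
  have : (((d.divisors.filter (fun b => Nat.Coprime b m)).card : ℝ) * ((X : ℝ) / d)) =
      ∑ b ∈ d.divisors.filter (fun b => Nat.Coprime b m), (X : ℝ) / d := by
    rw [Finset.sum_const, nsmul_eq_mul]
  rw [this, ← Finset.sum_sub_distrib]
  refine (Finset.abs_sum_le_sum_abs _ _).trans ?_
  refine (Finset.sum_le_sum hclass).trans ?_
  rw [Finset.sum_const, nsmul_eq_mul, mul_one]

/-- local densities -/
def locF (m : ℕ) (p : ℕ) : ℝ := if p ∣ m then 1 / p else 2 / p

theorem nu_eq (m d : ℕ) (hd : Squarefree d) :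
    prodPrimeFactors (locF m) d =
      ((d.divisors.filter (fun b => Nat.Coprime b m)).card : ℝ) / d := by
  have hd0 : d ≠ 0 := hd.ne_zero
  rw [prodPrimeFactors_apply hd0]
  -- multiplicative indicator
  let f : ArithmeticFunction ℝ := ⟨fun b => if b ≠ 0 ∧ Nat.Coprime b m then 1 else 0, by simp⟩
  have hf : f.IsMultiplicative := by
    rw [IsMultiplicative.iff_ne_zero]
    constructor
    · show (if (1 : ℕ) ≠ 0 ∧ Nat.Coprime 1 m then (1 : ℝ) else 0) = 1
      simp
    · intro a b ha hb hab
      show (if a * b ≠ 0 ∧ Nat.Coprime (a * b) m then (1 : ℝ) else 0) =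
        (if a ≠ 0 ∧ Nat.Coprime a m then (1 : ℝ) else 0) *
        (if b ≠ 0 ∧ Nat.Coprime b m then (1 : ℝ) else 0)
      by_cases h1 : Nat.Coprime a m <;> by_cases h2 : Nat.Coprime b m
      · rw [if_pos ⟨mul_ne_zero ha hb, Nat.coprime_mul_iff_left.mpr ⟨h1, h2⟩⟩, if_pos ⟨ha, h1⟩,
          if_pos ⟨hb, h2⟩, one_mul]
      · rw [if_neg (fun h => h2 (Nat.coprime_mul_iff_left.mp h.2).2), if_neg (fun h => h2 h.2 : ¬ (b ≠ 0 ∧ _)),
          mul_zero]
      · rw [if_neg (fun h => h1 (Nat.coprime_mul_iff_left.mp h.2).1), if_neg (fun h => h1 h.2 : ¬ (a ≠ 0 ∧ _)),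
          zero_mul]
      · rw [if_neg (fun h => h1 (Nat.coprime_mul_iff_left.mp h.2).1), if_neg (fun h => h1 h.2 : ¬ (a ≠ 0 ∧ _)),
          zero_mul]
  have h1 := hf.prodPrimeFactors_one_add_of_squarefree hd
  have h2 : (∑ e ∈ d.divisors, f e) = ((d.divisors.filter (fun b => Nat.Coprime b m)).card : ℝ) := by
    rw [← Finset.sum_boole]
    apply Finset.sum_congr rfl
    intro e he
    show (if e ≠ 0 ∧ Nat.Coprime e m then (1 : ℝ) else 0) = _
    have : e ≠ 0 := (Nat.pos_of_mem_divisors he).ne'
    simp [this]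
  rw [h2] at h1
  rw [← h1]
  have h3 : (d : ℝ) = ∏ p ∈ d.primeFactors, (p : ℝ) := by
    rw [← Nat.cast_prod, Nat.prod_primeFactors_of_squarefree hd]
  rw [h3, ← Finset.prod_div_distrib]
  apply Finset.prod_congr rfl
  intro p hp
  have hpp := Nat.prime_of_mem_primeFactors hp
  unfold locF
  show _ = (1 + (if p ≠ 0 ∧ Nat.Coprime p m then (1 : ℝ) else 0)) / p
  by_cases hpm : p ∣ m
  · have : ¬ Nat.Coprime p m := by
      rw [hpp.coprime_iff_not_dvd]; simpa using hpm
    simp [hpm, this]
  · have : Nat.Coprime p m := by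
      rw [hpp.coprime_iff_not_dvd]; exact hpm
    rw [if_neg hpm, if_pos ⟨hpp.ne_zero, this⟩]
    norm_num

/-- the sieve for pairs `n`, `m n + 1` -/
def pairSieve (m X z : ℕ) (hm : 2 ∣ m) : BoundingSieve where
  support := (Finset.Icc 1 X).image (fun n => n * (m * n + 1))
  prodPrimes := primorial z
  prodPrimes_squarefree := squarefree_primorial z
  weights := fun _ => 1
  weights_nonneg := fun _ => zero_le_one
  totalMass := X
  nu := prodPrimeFactors (locF m)
  nu_mult := IsMultiplicative.prodPrimeFactors _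
  nu_pos_of_prime := by
    intro p hp _
    rw [prodPrimeFactors_apply hp.ne_zero, hp.primeFactors, Finset.prod_singleton]
    have : (0 : ℝ) < p := by exact_mod_cast hp.pos
    unfold locF
    split_ifs <;> positivity
  nu_lt_one_of_prime := by
    intro p hp _
    rw [prodPrimeFactors_apply hp.ne_zero, hp.primeFactors, Finset.prod_singleton]
    have h2 : (2 : ℝ) ≤ p := by exact_mod_cast hp.two_le
    unfold locF
    split_ifs with h
    · rw [div_lt_one (by linarith)]
      linarith
    · have h3 : p ≠ 2 := by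
        rintro rfl
        exact h hm
      have h4 : 2 < p := lt_of_le_of_ne hp.two_le (Ne.symm h3)
      have h5 : (2 : ℝ) < p := by exact_mod_cast h4
      rw [div_lt_one (by linarith)]
      exact h5

theorem pair_injOn (m : ℕ) (X : ℕ) :
    Set.InjOn (fun n => n * (m * n + 1)) (Finset.Icc 1 X : Set ℕ) := by
  intro a ha b hb hab
  simp only [Finset.coe_Icc, Set.mem_Icc] at ha hb
  dsimp only at hab
  rcases lt_trichotomy a b with h | h | h
  · exfalso
    have h1 : a * (m * a + 1) < b * (m * b + 1) := by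
      apply Nat.mul_lt_mul_of_lt_of_le h
      · gcongr
      · omega
    omega
  · exact h
  · exfalso
    have h1 : b * (m * b + 1) < a * (m * a + 1) := by
      apply Nat.mul_lt_mul_of_lt_of_le h
      · gcongr
      · omega
    omega

theorem pair_multSum (m X z d : ℕ) (hm : 2 ∣ m) :
    (pairSieve m X z hm).multSum d =
      (((Finset.Icc 1 X).filter (fun n => d ∣ n * (m * n + 1))).card : ℝ) := by
  unfold multSum pairSieve
  dsimp only
  rw [Finset.sum_image (pair_injOn m X), Finset.sum_boole]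

theorem pair_rem (m X z d : ℕ) (hm : 2 ∣ m) (hd : Squarefree d) :
    |(pairSieve m X z hm).rem d| ≤ d := by
  unfold BoundingSieve.rem
  rw [pair_multSum]
  have h1 : (pairSieve m X z hm).nu d = ((d.divisors.filter (fun b => Nat.Coprime b m)).card : ℝ) / d :=
    nu_eq m d hd
  have h2 : (pairSieve m X z hm).totalMass = X := rfl
  rw [h1, h2]
  have h3 := card_dvd_pair m X d hd
  have h4 : ((d.divisors.filter (fun b => Nat.Coprime b m)).card : ℝ) / d * X =
      ((d.divisors.filter (fun b => Nat.Coprime b m)).card : ℝ) * ((X : ℝ) / d) := by ring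
  rw [h4]
  refine h3.trans ?_
  have h5 : (d.divisors.filter (fun b => Nat.Coprime b m)).card ≤ d :=
    (Finset.card_filter_le _ _).trans (Nat.card_divisors_le_self d)
  exact_mod_cast h5

theorem pair_nu_inv (m X z d : ℕ) (hm : 2 ∣ m) (hd : Squarefree d) :
    ((pairSieve m X z hm).nu d)⁻¹ ≤ d := by
  have h1 : (pairSieve m X z hm).nu d = ((d.divisors.filter (fun b => Nat.Coprime b m)).card : ℝ) / d :=
    nu_eq m d hd
  rw [h1, inv_div]
  have hd0 : d ≠ 0 := hd.ne_zero
  have h2 : 1 ≤ (d.divisors.filter (fun b => Nat.Coprime b m)).card := by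
    rw [Finset.one_le_card]
    refine ⟨1, ?_⟩
    rw [Finset.mem_filter]
    exact ⟨Nat.one_mem_divisors.mpr hd0, Nat.coprime_one_left m⟩
  have h3 : (1 : ℝ) ≤ ((d.divisors.filter (fun b => Nat.Coprime b m)).card : ℝ) := by exact_mod_cast h2
  apply div_le_self _ h3
  positivity

theorem pair_sieve_bound (m X D : ℕ) (hm : 2 ∣ m) (hD : 1 ≤ D) :
    (pairSieve m X D hm).siftedSum ≤ (X : ℝ) / SS (pairSieve m X D hm) D + (D : ℝ) ^ 6 := by
  have h := selberg_bound (pairSieve m X D hm) D hD (D : ℝ) ((D : ℝ) ^ 2) (by positivity) (by positivity)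
    ?_ ?_
  · refine h.trans (le_of_eq ?_)
    have h2 : (pairSieve m X D hm).totalMass = X := rfl
    rw [h2]
    ring
  · intro d hdP hdD
    have hsq : Squarefree d := (squarefree_primorial D).squarefree_of_dvd hdP
    refine (pair_nu_inv m X D d hm hsq).trans ?_
    exact_mod_cast hdD
  · intro d hdP hdD
    have hsq : Squarefree d := (squarefree_primorial D).squarefree_of_dvd hdP
    refine (pair_rem m X D d hm hsq).trans ?_
    exact_mod_cast hdD

/-- the number of prime pairs is bounded by the sifted sum -/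
theorem card_pairs_le (m X D : ℕ) (hm : 2 ∣ m) :
    ((((Finset.Icc 1 X).filter (fun q => q.Prime ∧ (m * q + 1).Prime)).card : ℕ) : ℝ) ≤
      D + (pairSieve m X D hm).siftedSum := by
  have h1 : (pairSieve m X D hm).siftedSum =
      (((Finset.Icc 1 X).filter (fun n => Nat.Coprime (primorial D) (n * (m * n + 1)))).card : ℝ) := by
    unfold siftedSum pairSieve
    dsimp only
    rw [Finset.sum_image (pair_injOn m X), Finset.sum_boole]
  rw [h1]
  have h2 : (Finset.Icc 1 X).filter (fun q => q.Prime ∧ (m * q + 1).Prime) ⊆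
      Finset.Icc 1 D ∪ (Finset.Icc 1 X).filter (fun n => Nat.Coprime (primorial D) (n * (m * n + 1))) := by
    intro q hq
    rw [Finset.mem_filter, Finset.mem_Icc] at hq
    obtain ⟨⟨hq1, hqX⟩, hqp, hmq⟩ := hq
    rw [Finset.mem_union, Finset.mem_Icc, Finset.mem_filter, Finset.mem_Icc]
    by_cases hqD : q ≤ D
    · left; exact ⟨hq1, hqD⟩
    · right
      refine ⟨⟨hq1, hqX⟩, ?_⟩
      push Not at hqD
      have h3 : Nat.Coprime (primorial D) q := by
        apply Nat.Coprime.symm
        rw [hqp.coprime_iff_not_dvd, hqp.dvd_primorial_iff]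
        omega
      have h4 : Nat.Coprime (primorial D) (m * q + 1) := by
        apply Nat.Coprime.symm
        rw [hmq.coprime_iff_not_dvd, hmq.dvd_primorial_iff]
        intro hle
        rcases Nat.eq_zero_or_pos m with h0 | h0
        · subst h0
          simp at hmq
          exact absurd hmq Nat.not_prime_one
        · have : q ≤ m * q := Nat.le_mul_of_pos_left q h0
          omega
      exact Nat.Coprime.mul_right h3 h4
  have h3 := (Finset.card_le_card h2).trans (Finset.card_union_le _ _)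
  rw [Nat.card_Icc, Nat.add_sub_cancel] at h3
  exact_mod_cast h3

end

end Pool.Agent.H6
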