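import Mathlib
import Pool.Agent.H6.Pairs

/-!
Lower bound for the Selberg sum of the pair sieve, and the resulting bound for prime pairs.
-/

open Finset BoundingSieve ArithmeticFunction
open scoped ArithmeticFunction.Moebius ArithmeticFunction.zeta

namespace Pool.Agent.H6

noncomputable section

/-- squarefree numbers up to `w`, coprime to `m` -/
def QQ (m w : ℕ) : Finset ℕ := (Finset.Icc 1 w).filter (fun a => Squarefree a ∧ Nat.Coprime a m)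

theorem mem_QQ {m w a : ℕ} : a ∈ QQ m w ↔ (1 ≤ a ∧ a ≤ w) ∧ Squarefree a ∧ Nat.Coprime a m := by
  unfold QQ
  rw [Finset.mem_filter, Finset.mem_Icc]

theorem selbergTerms_lower (m X D l : ℕ) (hm : 2 ∣ m) (hl : l ∈ QQ 1 D) :
    ((l.divisors.filter (fun b => Nat.Coprime b m)).card : ℝ) / l ≤
      (pairSieve m X D hm).selbergTerms l := by
  rw [mem_QQ] at hl
  obtain ⟨⟨h1, h2⟩, hsq, -⟩ := hl
  rw [selbergTerms_apply]
  have hnu : (pairSieve m X D hm).nu l = ((l.divisors.filter (fun b => Nat.Coprime b m)).card : ℝ) / l :=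
    nu_eq m l hsq
  rw [hnu]
  apply le_mul_of_one_le_right (by positivity)
  have hprod : ∏ p ∈ l.primeFactors, (1 : ℝ) ≤
      ∏ p ∈ l.primeFactors, (1 - (pairSieve m X D hm).nu p)⁻¹ := by
    apply Finset.prod_le_prod
    · intro i _; exact zero_le_one
    · intro p hp
      have hpp := Nat.prime_of_mem_primeFactors hp
      have hpl := Nat.dvd_of_mem_primeFactors hp
      have hdvd : p ∣ (pairSieve m X D hm).prodPrimes := by
        show p ∣ primorial D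
        rw [hpp.dvd_primorial_iff]
        exact (Nat.le_of_dvd (by omega) hpl).trans h2
      have e1 := (pairSieve m X D hm).nu_pos_of_prime p hpp hdvd
      have e2 := (pairSieve m X D hm).nu_lt_one_of_prime p hpp hdvd
      rw [one_le_inv₀ (by linarith)]
      linarith
  simpa using hprod

theorem SS_ge_sum (m X D : ℕ) (hm : 2 ∣ m) :
    ∑ l ∈ QQ 1 D, ((l.divisors.filter (fun b => Nat.Coprime b m)).card : ℝ) / l ≤
      SS (pairSieve m X D hm) D := by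
  unfold SS
  have hsub : QQ 1 D ⊆ (pairSieve m X D hm).prodPrimes.divisors := by
    intro l hl
    rw [mem_QQ] at hl
    rw [Nat.mem_divisors]
    refine ⟨?_, prodPrimes_ne_zero⟩
    exact hl.2.1.dvd_primorial.trans (primorial_dvd_primorial hl.1.2)
  calc ∑ l ∈ QQ 1 D, ((l.divisors.filter (fun b => Nat.Coprime b m)).card : ℝ) / l
      ≤ ∑ l ∈ QQ 1 D, (if l ≤ D then (pairSieve m X D hm).selbergTerms l else 0) := by
        apply Finset.sum_le_sum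
        intro l hl
        rw [if_pos (mem_QQ.mp hl).1.2]
        exact selbergTerms_lower m X D l hm hl
    _ ≤ _ := by
        apply Finset.sum_le_sum_of_subset_of_nonneg hsub
        intro i hi _
        split_ifs
        · exact (selbergTerms_pos (Nat.dvd_of_mem_divisors hi)).le
        · exact le_rfl

/-- coprime pairs of squarefree numbers, the first one coprime to `m` -/
def PP (m w : ℕ) : Finset (ℕ × ℕ) := (QQ m w ×ˢ QQ 1 w).filter (fun x => Nat.Coprime x.1 x.2)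

theorem sum_PP_le (m w : ℕ) :
    ∑ x ∈ PP m w, (1 : ℝ) / (x.1 * x.2) ≤
      ∑ l ∈ QQ 1 (w ^ 2), ((l.divisors.filter (fun b => Nat.Coprime b m)).card : ℝ) / l := by
  have hmaps : ∀ x ∈ PP m w, x.1 * x.2 ∈ QQ 1 (w ^ 2) := by
    intro x hx
    unfold PP at hx
    rw [Finset.mem_filter, Finset.mem_product, mem_QQ, mem_QQ] at hx
    obtain ⟨⟨⟨⟨h1, h2⟩, h3, h4⟩, ⟨h5, h6⟩, h7, h8⟩, h9⟩ := hx
    rw [mem_QQ]
    refine ⟨⟨Nat.mul_pos h1 h5, ?_⟩, (Nat.squarefree_mul h9).mpr ⟨h3, h7⟩, Nat.coprime_one_right _⟩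
    calc x.1 * x.2 ≤ w * w := Nat.mul_le_mul h2 h6
      _ = w ^ 2 := by ring
  rw [← Finset.sum_fiberwise_of_maps_to hmaps]
  apply Finset.sum_le_sum
  intro l hl
  have hlpos : 0 < l := (mem_QQ.mp hl).1.1
  calc ∑ x ∈ (PP m w).filter (fun x => x.1 * x.2 = l), (1 : ℝ) / (x.1 * x.2)
      = ∑ x ∈ (PP m w).filter (fun x => x.1 * x.2 = l), (1 : ℝ) / l := by
        apply Finset.sum_congr rfl
        intro x hx
        rw [Finset.mem_filter] at hx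
        rw [← hx.2]
        push_cast
        rfl
    _ = (((PP m w).filter (fun x => x.1 * x.2 = l)).card : ℝ) * (1 / l) := by
        rw [Finset.sum_const, nsmul_eq_mul]
    _ ≤ ((l.divisors.filter (fun b => Nat.Coprime b m)).card : ℝ) * (1 / l) := by
        gcongr
        apply Finset.card_le_card_of_injOn (fun x => x.1)
        · intro x hx
          rw [Finset.mem_coe, Finset.mem_filter] at hx
          obtain ⟨hx1, hx2⟩ := hx
          unfold PP at hx1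
          rw [Finset.mem_filter, Finset.mem_product, mem_QQ] at hx1
          rw [Finset.mem_coe, Finset.mem_filter, Nat.mem_divisors]
          exact ⟨⟨⟨x.2, hx2.symm⟩, hlpos.ne'⟩, hx1.1.1.2.2⟩
        · intro x hx y hy hxy
          rw [Finset.mem_coe, Finset.mem_filter] at hx hy
          have h1 : x.1 * x.2 = y.1 * y.2 := hx.2.trans hy.2.symm
          have hxpos : 0 < x.1 := by
            rcases Nat.eq_zero_or_pos x.1 with h | h
            · exfalso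
              have := hx.2
              rw [h, zero_mul] at this
              omega
            · exact h
          dsimp only at hxy
          rw [← hxy] at h1
          exact Prod.ext hxy (Nat.eq_of_mul_eq_mul_left hxpos h1)
    _ = _ := by ring

theorem sum_inv_sq_le (w : ℕ) : ∑ s ∈ Finset.Icc 1 w, (1 : ℝ) / (s : ℝ) ^ 2 ≤ 2 := by
  have h := sum_Ioo_inv_sq_le (α := ℝ) 0 (w + 1)
  have h2 : Finset.Icc 1 w = Finset.Ioo 0 (w + 1) := by
    ext x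
    simp only [Finset.mem_Icc, Finset.mem_Ioo]
    omega
  rw [h2]
  simp only [one_div]
  refine h.trans ?_
  norm_num

theorem U_mul_le (m w : ℕ) :
    (∑ a ∈ QQ m w, (1 : ℝ) / a) * (∑ a ∈ QQ 1 w, (1 : ℝ) / a) ≤
      2 * ∑ x ∈ PP m w, (1 : ℝ) / (x.1 * x.2) := by
  rw [Finset.sum_mul_sum, ← Finset.sum_product']
  -- the injection
  let φ : ℕ × ℕ → ℕ × (ℕ × ℕ) := fun x => (Nat.gcd x.1 x.2, (x.1 / Nat.gcd x.1 x.2, x.2 / Nat.gcd x.1 x.2))
  have hval : ∀ x ∈ QQ m w ×ˢ QQ 1 w, (1 : ℝ) / (x.1 : ℝ) * (1 / (x.2 : ℝ)) =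
      (fun y : ℕ × (ℕ × ℕ) => (1 / (y.1 : ℝ) ^ 2) * (1 / ((y.2.1 : ℝ) * y.2.2))) (φ x) := by
    intro x hx
    rw [Finset.mem_product, mem_QQ, mem_QQ] at hx
    have hg : 0 < Nat.gcd x.1 x.2 := Nat.gcd_pos_of_pos_left _ hx.1.1.1
    have e1 : (x.1 : ℝ) = (Nat.gcd x.1 x.2 : ℝ) * ((x.1 / Nat.gcd x.1 x.2 : ℕ) : ℝ) := by
      rw [← Nat.cast_mul, Nat.mul_div_cancel' (Nat.gcd_dvd_left _ _)]
    have e2 : (x.2 : ℝ) = (Nat.gcd x.1 x.2 : ℝ) * ((x.2 / Nat.gcd x.1 x.2 : ℕ) : ℝ) := by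
      rw [← Nat.cast_mul, Nat.mul_div_cancel' (Nat.gcd_dvd_right _ _)]
    show (1 : ℝ) / (x.1 : ℝ) * (1 / (x.2 : ℝ)) = (1 / (Nat.gcd x.1 x.2 : ℝ) ^ 2) *
      (1 / (((x.1 / Nat.gcd x.1 x.2 : ℕ) : ℝ) * ((x.2 / Nat.gcd x.1 x.2 : ℕ) : ℝ)))
    have hgR : (0 : ℝ) < (Nat.gcd x.1 x.2 : ℝ) := by exact_mod_cast hg
    have hx1 : (0 : ℝ) < (x.1 : ℝ) := by exact_mod_cast hx.1.1.1
    have hx2 : (0 : ℝ) < (x.2 : ℝ) := by exact_mod_cast hx.2.1.1
    have ha : (0 : ℝ) < ((x.1 / Nat.gcd x.1 x.2 : ℕ) : ℝ) := by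
      rw [e1] at hx1
      exact (mul_pos_iff_of_pos_left hgR).mp hx1
    have hb : (0 : ℝ) < ((x.2 / Nat.gcd x.1 x.2 : ℕ) : ℝ) := by
      rw [e2] at hx2
      exact (mul_pos_iff_of_pos_left hgR).mp hx2
    calc (1 : ℝ) / (x.1 : ℝ) * (1 / (x.2 : ℝ)) =
        1 / ((Nat.gcd x.1 x.2 : ℝ) * ((x.1 / Nat.gcd x.1 x.2 : ℕ) : ℝ)) *
        (1 / ((Nat.gcd x.1 x.2 : ℝ) * ((x.2 / Nat.gcd x.1 x.2 : ℕ) : ℝ))) := by rw [← e1, ← e2]
      _ = _ := by field_simp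
  have hinj : Set.InjOn φ (QQ m w ×ˢ QQ 1 w : Finset (ℕ × ℕ)) := by
    intro x _ y _ hxy
    have h1 : Nat.gcd x.1 x.2 = Nat.gcd y.1 y.2 := congrArg Prod.fst hxy
    have h2 : x.1 / Nat.gcd x.1 x.2 = y.1 / Nat.gcd y.1 y.2 := congrArg (fun z => z.2.1) hxy
    have h3 : x.2 / Nat.gcd x.1 x.2 = y.2 / Nat.gcd y.1 y.2 := congrArg (fun z => z.2.2) hxy
    apply Prod.ext
    · rw [← Nat.mul_div_cancel' (Nat.gcd_dvd_left x.1 x.2), h1, ← h1, h2, h1,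
        Nat.mul_div_cancel' (Nat.gcd_dvd_left y.1 y.2)]
    · rw [← Nat.mul_div_cancel' (Nat.gcd_dvd_right x.1 x.2), h1, ← h1, h3, h1,
        Nat.mul_div_cancel' (Nat.gcd_dvd_right y.1 y.2)]
  rw [Finset.sum_congr rfl hval, ← Finset.sum_image
    (f := fun y : ℕ × (ℕ × ℕ) => (1 / (y.1 : ℝ) ^ 2) * (1 / ((y.2.1 : ℝ) * y.2.2))) hinj]
  have hsub : (QQ m w ×ˢ QQ 1 w).image φ ⊆ Finset.Icc 1 w ×ˢ PP m w := by
    intro y hy
    rw [Finset.mem_image] at hy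
    obtain ⟨x, hx, rfl⟩ := hy
    rw [Finset.mem_product, mem_QQ, mem_QQ] at hx
    obtain ⟨⟨⟨h1, h2⟩, h3, h4⟩, ⟨h5, h6⟩, h7, h8⟩ := hx
    have hg : 0 < Nat.gcd x.1 x.2 := Nat.gcd_pos_of_pos_left _ h1
    have hd1 := Nat.gcd_dvd_left x.1 x.2
    have hd2 := Nat.gcd_dvd_right x.1 x.2
    have hq1 : x.1 / Nat.gcd x.1 x.2 ∣ x.1 := Nat.div_dvd_of_dvd hd1
    have hq2 : x.2 / Nat.gcd x.1 x.2 ∣ x.2 := Nat.div_dvd_of_dvd hd2
    rw [Finset.mem_product]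
    constructor
    · rw [Finset.mem_Icc]
      exact ⟨hg, (Nat.le_of_dvd h1 hd1).trans h2⟩
    · unfold PP
      rw [Finset.mem_filter, Finset.mem_product, mem_QQ, mem_QQ]
      refine ⟨⟨⟨⟨Nat.pos_of_dvd_of_pos hq1 h1, (Nat.le_of_dvd h1 hq1).trans h2⟩,
        h3.squarefree_of_dvd hq1, Nat.Coprime.coprime_dvd_left hq1 h4⟩,
        ⟨Nat.pos_of_dvd_of_pos hq2 h5, (Nat.le_of_dvd h5 hq2).trans h6⟩,
        h7.squarefree_of_dvd hq2, Nat.Coprime.coprime_dvd_left hq2 h8⟩, ?_⟩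
      exact Nat.coprime_div_gcd_div_gcd hg
  refine (Finset.sum_le_sum_of_subset_of_nonneg hsub (fun i _ _ => by positivity)).trans ?_
  rw [Finset.sum_product]
  simp_rw [← Finset.mul_sum]
  rw [← Finset.sum_mul]
  have hnn : 0 ≤ ∑ x ∈ PP m w, (1 : ℝ) / (x.1 * x.2) := Finset.sum_nonneg (fun i _ => by positivity)
  exact mul_le_mul_of_nonneg_right (sum_inv_sq_le w) hnn

theorem H_le (m w : ℕ) (hm0 : 0 < m) :
    ∑ n ∈ Finset.Icc 1 w, (1 : ℝ) / n ≤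
      2 * (∑ h ∈ m.divisors, (1 : ℝ) / h) * ∑ a ∈ QQ m w, (1 : ℝ) / a := by
  have hex : ∀ n : ℕ, ∃ x : ℕ × ℕ × ℕ, 0 < n → (n = x.1 ^ 2 * (x.2.1 * x.2.2) ∧ x.2.1 ∣ m ∧
      Squarefree x.2.2 ∧ Nat.Coprime x.2.2 m) := by
    intro n
    obtain ⟨t, s, hst, hsq⟩ := Nat.sq_mul_squarefree n
    refine ⟨(s, Nat.gcd t m, t / Nat.gcd t m), fun hn => ⟨?_, Nat.gcd_dvd_right _ _, ?_, ?_⟩⟩
    · show n = s ^ 2 * (Nat.gcd t m * (t / Nat.gcd t m))
      rw [Nat.mul_div_cancel' (Nat.gcd_dvd_left t m), hst]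
    · exact hsq.squarefree_of_dvd (Nat.div_dvd_of_dvd (Nat.gcd_dvd_left t m))
    · show Nat.Coprime (t / Nat.gcd t m) m
      apply Nat.coprime_of_dvd
      intro p hp h1 h2
      have h3 : p ∣ t := h1.trans (Nat.div_dvd_of_dvd (Nat.gcd_dvd_left t m))
      have h4 : p ∣ Nat.gcd t m := Nat.dvd_gcd h3 h2
      have h5 : p * p ∣ t := by
        have := Nat.mul_dvd_mul h4 h1
        rwa [Nat.mul_div_cancel' (Nat.gcd_dvd_left t m)] at this
      have := hsq p h5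
      exact hp.one_lt.ne' (Nat.isUnit_iff.mp this)
  choose φ hφ using hex
  have hval : ∀ n ∈ Finset.Icc 1 w, (1 : ℝ) / n =
      (fun y : ℕ × ℕ × ℕ => (1 / (y.1 : ℝ) ^ 2) * ((1 / (y.2.1 : ℝ)) * (1 / (y.2.2 : ℝ)))) (φ n) := by
    intro n hn
    rw [Finset.mem_Icc] at hn
    obtain ⟨h1, _⟩ := hφ n hn.1
    have h2 : (n : ℝ) = ((φ n).1 : ℝ) ^ 2 * (((φ n).2.1 : ℝ) * ((φ n).2.2 : ℝ)) := by
      exact_mod_cast congrArg (Nat.cast : ℕ → ℝ) h1
    show (1 : ℝ) / n = (1 / ((φ n).1 : ℝ) ^ 2) * ((1 / ((φ n).2.1 : ℝ)) * (1 / ((φ n).2.2 : ℝ)))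
    rw [h2, one_div_mul_one_div, one_div_mul_one_div]
  have hinj : Set.InjOn φ (Finset.Icc 1 w : Finset ℕ) := by
    intro x hx y hy hxy
    simp only [Finset.coe_Icc, Set.mem_Icc] at hx hy
    rw [(hφ x hx.1).1, (hφ y hy.1).1, hxy]
  rw [Finset.sum_congr rfl hval, ← Finset.sum_image
    (f := fun y : ℕ × ℕ × ℕ => (1 / (y.1 : ℝ) ^ 2) * ((1 / (y.2.1 : ℝ)) * (1 / (y.2.2 : ℝ)))) hinj]
  have hsub : (Finset.Icc 1 w).image φ ⊆ Finset.Icc 1 w ×ˢ (m.divisors ×ˢ QQ m w) := by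
    intro y hy
    rw [Finset.mem_image] at hy
    obtain ⟨n, hn, rfl⟩ := hy
    rw [Finset.mem_Icc] at hn
    obtain ⟨h1, h2, h3, h4⟩ := hφ n hn.1
    have hnpos : 0 < n := hn.1
    have p1 : (φ n).1 ∣ n := by
      have : (φ n).1 ∣ (φ n).1 ^ 2 * ((φ n).2.1 * (φ n).2.2) :=
        Dvd.dvd.mul_right (dvd_pow_self _ two_ne_zero) _
      rwa [← h1] at this
    have p2 : (φ n).2.2 ∣ n := by
      have : (φ n).2.2 ∣ (φ n).1 ^ 2 * ((φ n).2.1 * (φ n).2.2) :=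
        Dvd.dvd.mul_left (dvd_mul_left (φ n).2.2 (φ n).2.1) ((φ n).1 ^ 2)
      rwa [← h1] at this
    rw [Finset.mem_product, Finset.mem_product, Finset.mem_Icc, Nat.mem_divisors, mem_QQ]
    exact ⟨⟨Nat.pos_of_dvd_of_pos p1 hnpos, (Nat.le_of_dvd hnpos p1).trans hn.2⟩,
      ⟨h2, hm0.ne'⟩, ⟨Nat.pos_of_dvd_of_pos p2 hnpos, (Nat.le_of_dvd hnpos p2).trans hn.2⟩, h3, h4⟩
  refine (Finset.sum_le_sum_of_subset_of_nonneg hsub (fun i _ _ => by positivity)).trans ?_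
  rw [Finset.sum_product]
  simp_rw [← Finset.mul_sum]
  rw [← Finset.sum_mul, Finset.sum_product]
  simp_rw [← Finset.mul_sum]
  rw [← Finset.sum_mul]
  have hU : 0 ≤ ∑ a ∈ QQ m w, (1 : ℝ) / a := Finset.sum_nonneg (fun i _ => by positivity)
  have hnn : 0 ≤ ∑ h ∈ m.divisors, (1 : ℝ) / h := Finset.sum_nonneg (fun i _ => by positivity)
  calc _ ≤ 2 * ((∑ h ∈ m.divisors, (1 : ℝ) / h) * ∑ a ∈ QQ m w, (1 : ℝ) / a) := by
        exact mul_le_mul_of_nonneg_right (sum_inv_sq_le w) (mul_nonneg hnn hU)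
    _ = _ := by ring

theorem log_sq_le (m X w : ℕ) (hm : 2 ∣ m) (hm0 : 0 < m) (hw : 1 ≤ w) :
    (Real.log w) ^ 2 ≤ 8 * (∑ h ∈ m.divisors, (1 : ℝ) / h) *
      SS (pairSieve m X (w ^ 2) hm) (w ^ 2) := by
  have h1 : Real.log w ≤ ∑ n ∈ Finset.Icc 1 w, (1 : ℝ) / n := by
    have h := log_add_one_le_harmonic w
    have h2 : ((harmonic w : ℚ) : ℝ) = ∑ n ∈ Finset.Icc 1 w, (1 : ℝ) / n := by
      rw [harmonic_eq_sum_Icc]
      push_cast
      simp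
    rw [h2] at h
    refine le_trans ?_ h
    apply Real.log_le_log
    · exact_mod_cast hw
    · exact_mod_cast Nat.le_succ w
  have h0 : 0 ≤ Real.log w := Real.log_natCast_nonneg w
  have h2 := H_le m w hm0
  have h2' := H_le 1 w one_pos
  have h3 := U_mul_le m w
  have h4 := (sum_PP_le m w).trans (SS_ge_sum m X (w ^ 2) hm)
  have hU : 0 ≤ ∑ a ∈ QQ m w, (1 : ℝ) / a := Finset.sum_nonneg (fun i _ => by positivity)
  have hU1 : 0 ≤ ∑ a ∈ QQ 1 w, (1 : ℝ) / a := Finset.sum_nonneg (fun i _ => by positivity)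
  have hs : 0 ≤ ∑ h ∈ m.divisors, (1 : ℝ) / h := Finset.sum_nonneg (fun i _ => by positivity)
  have h5 : Real.log w ≤ 2 * ∑ a ∈ QQ 1 w, (1 : ℝ) / a := by
    refine h1.trans (h2'.trans (le_of_eq ?_))
    simp
  calc (Real.log w) ^ 2 = Real.log w * Real.log w := sq _
    _ ≤ (2 * (∑ h ∈ m.divisors, (1 : ℝ) / h) * ∑ a ∈ QQ m w, (1 : ℝ) / a) *
        (2 * ∑ a ∈ QQ 1 w, (1 : ℝ) / a) := by
        apply mul_le_mul (h1.trans h2) h5 h0 (by positivity)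
    _ = 4 * (∑ h ∈ m.divisors, (1 : ℝ) / h) *
        ((∑ a ∈ QQ m w, (1 : ℝ) / a) * ∑ a ∈ QQ 1 w, (1 : ℝ) / a) := by ring
    _ ≤ 4 * (∑ h ∈ m.divisors, (1 : ℝ) / h) * (2 * SS (pairSieve m X (w ^ 2) hm) (w ^ 2)) := by
        apply mul_le_mul_of_nonneg_left _ (by positivity)
        linarith
    _ = _ := by ring

/-- explicit upper bound for prime pairs `q, m q + 1` -/
theorem card_pairs_explicit (m X w : ℕ) (hm : 2 ∣ m) (hm0 : 0 < m) (hw : 2 ≤ w) :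
    ((((Finset.Icc 1 X).filter (fun q => q.Prime ∧ (m * q + 1).Prime)).card : ℕ) : ℝ) ≤
      8 * (∑ h ∈ m.divisors, (1 : ℝ) / h) * X / (Real.log w) ^ 2 + 2 * (w : ℝ) ^ 12 := by
  have h1 := card_pairs_le m X (w ^ 2) hm
  have h2 := pair_sieve_bound m X (w ^ 2) hm (Nat.one_le_pow _ _ (by omega))
  have h3 := log_sq_le m X w hm hm0 (by omega)
  have hlog : 0 < Real.log w := Real.log_pos (by exact_mod_cast (by omega : 1 < w))
  have hS : 0 < SS (pairSieve m X (w ^ 2) hm) (w ^ 2) :=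
    lt_of_lt_of_le one_pos (one_le_SS _ _ (Nat.one_le_pow _ _ (by omega)))
  have h4 : (X : ℝ) / SS (pairSieve m X (w ^ 2) hm) (w ^ 2) ≤
      8 * (∑ h ∈ m.divisors, (1 : ℝ) / h) * X / (Real.log w) ^ 2 := by
    rw [div_le_div_iff₀ hS (by positivity)]
    calc (X : ℝ) * (Real.log w) ^ 2 ≤ X * (8 * (∑ h ∈ m.divisors, (1 : ℝ) / h) *
          SS (pairSieve m X (w ^ 2) hm) (w ^ 2)) := by
          gcongr
      _ = _ := by ring
  have h5 : ((w ^ 2 : ℕ) : ℝ) + (((w ^ 2 : ℕ) : ℝ)) ^ 6 ≤ 2 * (w : ℝ) ^ 12 := by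
    push_cast
    have hw1 : (1 : ℝ) ≤ w := by exact_mod_cast (by omega : 1 ≤ w)
    have : (w : ℝ) ^ 2 ≤ (w : ℝ) ^ 12 := pow_le_pow_right₀ hw1 (by norm_num)
    have h6 : ((w : ℝ) ^ 2) ^ 6 = (w : ℝ) ^ 12 := by ring
    rw [h6]
    linarith
  linarith

end

end Pool.Agent.H6
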