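import Mathlib
import Pool.Agent.H6.Lower

/-!
An integer `M` divisible by all `p - 1`, `p ≤ Y` an odd prime, with `log M = O(Y loglog Y / log Y)`.
-/

open Finset Filter Topology

namespace Pool.Agent.H6

noncomputable section

/-- the average of `σ(m)/m` weighted with `1/m` -/
theorem sum_sigma_le (T : ℕ) :
    ∑ m ∈ Finset.Icc 1 T, (∑ h ∈ m.divisors, (1 : ℝ) / h) * (1 / m) ≤
      2 * ∑ m ∈ Finset.Icc 1 T, (1 : ℝ) / m := by
  have h1 : ∑ m ∈ Finset.Icc 1 T, (∑ h ∈ m.divisors, (1 : ℝ) / h) * (1 / m) =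
      ∑ x ∈ (Finset.Icc 1 T).sigma (fun m => m.divisors), ((1 : ℝ) / x.2) * (1 / x.1) := by
    rw [Finset.sum_sigma]
    apply Finset.sum_congr rfl
    intro m _
    rw [Finset.sum_mul]
  rw [h1]
  have h2 : ∀ x ∈ (Finset.Icc 1 T).sigma (fun m => m.divisors), ((1 : ℝ) / x.2) * (1 / x.1) =
      (fun y : ℕ × ℕ => (1 / (y.1 : ℝ) ^ 2) * (1 / (y.2 : ℝ))) (x.2, x.1 / x.2) := by
    intro x hx
    rw [Finset.mem_sigma, Finset.mem_Icc, Nat.mem_divisors] at hx
    obtain ⟨⟨h3, h4⟩, h5, h6⟩ := hx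
    have e1 : (x.1 : ℝ) = (x.2 : ℝ) * ((x.1 / x.2 : ℕ) : ℝ) := by
      rw [← Nat.cast_mul, Nat.mul_div_cancel' h5]
    show ((1 : ℝ) / x.2) * (1 / x.1) = (1 / (x.2 : ℝ) ^ 2) * (1 / ((x.1 / x.2 : ℕ) : ℝ))
    rw [one_div_mul_one_div, one_div_mul_one_div]
    congr 1
    calc (x.2 : ℝ) * x.1 = (x.2 : ℝ) * ((x.2 : ℝ) * ((x.1 / x.2 : ℕ) : ℝ)) := by rw [← e1]
      _ = _ := by ring
  have hinj : Set.InjOn (fun x : (_ : ℕ) × ℕ => (x.2, x.1 / x.2))
      ((Finset.Icc 1 T).sigma (fun m => m.divisors) : Finset ((_ : ℕ) × ℕ)) := by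
    intro x hx y hy hxy
    rw [Finset.mem_coe, Finset.mem_sigma, Finset.mem_Icc, Nat.mem_divisors] at hx hy
    have e1 : x.2 = y.2 := congrArg Prod.fst hxy
    have e2 : x.1 / x.2 = y.1 / y.2 := congrArg Prod.snd hxy
    have e3 : x.1 = y.1 := by
      rw [← Nat.mul_div_cancel' hx.2.1, e2, e1, Nat.mul_div_cancel' hy.2.1]
    rcases x with ⟨a, b⟩
    rcases y with ⟨c, d⟩
    simp only at e1 e3
    subst e1 e3
    rfl
  rw [Finset.sum_congr rfl h2, ← Finset.sum_image
    (f := fun y : ℕ × ℕ => (1 / (y.1 : ℝ) ^ 2) * (1 / (y.2 : ℝ))) hinj]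
  have hsub : ((Finset.Icc 1 T).sigma (fun m => m.divisors)).image
      (fun x : (_ : ℕ) × ℕ => (x.2, x.1 / x.2)) ⊆ Finset.Icc 1 T ×ˢ Finset.Icc 1 T := by
    intro y hy
    rw [Finset.mem_image] at hy
    obtain ⟨x, hx, rfl⟩ := hy
    rw [Finset.mem_sigma, Finset.mem_Icc, Nat.mem_divisors] at hx
    obtain ⟨⟨h3, h4⟩, h5, h6⟩ := hx
    have hx2 : 0 < x.2 := Nat.pos_of_dvd_of_pos h5 h3
    rw [Finset.mem_product, Finset.mem_Icc, Finset.mem_Icc]
    have hd := Nat.div_dvd_of_dvd h5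
    exact ⟨⟨hx2, (Nat.le_of_dvd h3 h5).trans h4⟩,
      ⟨Nat.pos_of_dvd_of_pos hd h3, (Nat.le_of_dvd h3 hd).trans h4⟩⟩
  refine (Finset.sum_le_sum_of_subset_of_nonneg hsub (fun i _ _ => by positivity)).trans ?_
  rw [Finset.sum_product]
  simp_rw [← Finset.mul_sum]
  rw [← Finset.sum_mul]
  exact mul_le_mul_of_nonneg_right (sum_inv_sq_le T) (Finset.sum_nonneg (fun i _ => by positivity))

theorem harm_le (T : ℕ) :
    ∑ m ∈ Finset.Icc 1 T, (1 : ℝ) / m ≤ 1 + Real.log T := by
  have h := harmonic_le_one_add_log T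
  have h2 : ((harmonic T : ℚ) : ℝ) = ∑ n ∈ Finset.Icc 1 T, (1 : ℝ) / n := by
    rw [harmonic_eq_sum_Icc]
    push_cast
    simp
  rw [h2] at h
  exact h

/-- expensive primes: `Y / T < q`, with `m q + 1` a prime at most `Y` for some even `m ≤ T` -/
def EE (T Y : ℕ) : Finset ℕ :=
  (Finset.Icc 1 Y).filter (fun q => q.Prime ∧ ∃ m ∈ Finset.Icc 1 T, 2 ∣ m ∧ q ≤ Y / m ∧ (m * q + 1).Prime)

theorem card_EE_le (T Y w : ℕ) (hw : 2 ≤ w) :
    ((EE T Y).card : ℝ) ≤ 16 * (1 + Real.log T) * Y / (Real.log w) ^ 2 + T * (2 * (w : ℝ) ^ 12) := by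
  have hsub : EE T Y ⊆ ((Finset.Icc 1 T).filter (fun m => 2 ∣ m)).biUnion
      (fun m => (Finset.Icc 1 (Y / m)).filter (fun q => q.Prime ∧ (m * q + 1).Prime)) := by
    intro q hq
    unfold EE at hq
    rw [Finset.mem_filter, Finset.mem_Icc] at hq
    obtain ⟨⟨h1, h2⟩, h3, m, hm, hm2, h4, h5⟩ := hq
    rw [Finset.mem_biUnion]
    refine ⟨m, ?_, ?_⟩
    · rw [Finset.mem_filter]; exact ⟨hm, hm2⟩
    · rw [Finset.mem_filter, Finset.mem_Icc]
      exact ⟨⟨h1, h4⟩, h3, h5⟩
  have hlog : 0 < Real.log w := Real.log_pos (by exact_mod_cast (by omega : 1 < w))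
  have h1 : ((EE T Y).card : ℝ) ≤ ∑ m ∈ (Finset.Icc 1 T).filter (fun m => 2 ∣ m),
      ((((Finset.Icc 1 (Y / m)).filter (fun q => q.Prime ∧ (m * q + 1).Prime)).card : ℕ) : ℝ) := by
    have := (Finset.card_le_card hsub).trans Finset.card_biUnion_le
    exact_mod_cast this
  refine h1.trans ?_
  calc _ ≤ ∑ m ∈ (Finset.Icc 1 T).filter (fun m => 2 ∣ m),
        (8 * ((∑ h ∈ m.divisors, (1 : ℝ) / h) * (1 / m)) * Y / (Real.log w) ^ 2 + 2 * (w : ℝ) ^ 12) := by
        apply Finset.sum_le_sum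
        intro m hm
        rw [Finset.mem_filter, Finset.mem_Icc] at hm
        have h2 := card_pairs_explicit m (Y / m) w hm.2 hm.1.1 hw
        refine h2.trans ?_
        have h3 : ((Y / m : ℕ) : ℝ) ≤ (Y : ℝ) * (1 / m) := by
          rw [mul_one_div]
          exact Nat.cast_div_le
        have hs : 0 ≤ ∑ h ∈ m.divisors, (1 : ℝ) / h := Finset.sum_nonneg (fun i _ => by positivity)
        have h4 : 8 * (∑ h ∈ m.divisors, (1 : ℝ) / h) * ((Y / m : ℕ) : ℝ) / (Real.log w) ^ 2 ≤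
            8 * (∑ h ∈ m.divisors, (1 : ℝ) / h) * ((Y : ℝ) * (1 / m)) / (Real.log w) ^ 2 := by
          gcongr
        have h5 : 8 * (∑ h ∈ m.divisors, (1 : ℝ) / h) * ((Y : ℝ) * (1 / m)) / (Real.log w) ^ 2 =
            8 * ((∑ h ∈ m.divisors, (1 : ℝ) / h) * (1 / m)) * Y / (Real.log w) ^ 2 := by ring
        linarith
    _ ≤ ∑ m ∈ Finset.Icc 1 T,
        (8 * ((∑ h ∈ m.divisors, (1 : ℝ) / h) * (1 / m)) * Y / (Real.log w) ^ 2 + 2 * (w : ℝ) ^ 12) := by
        apply Finset.sum_le_sum_of_subset_of_nonneg (Finset.filter_subset _ _)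
        intro i _ _
        have hs : 0 ≤ ∑ h ∈ i.divisors, (1 : ℝ) / h := Finset.sum_nonneg (fun i _ => by positivity)
        positivity
    _ = 8 * (∑ m ∈ Finset.Icc 1 T, (∑ h ∈ m.divisors, (1 : ℝ) / h) * (1 / m)) * Y / (Real.log w) ^ 2 +
        T * (2 * (w : ℝ) ^ 12) := by
        rw [Finset.sum_add_distrib, Finset.sum_const, Nat.card_Icc, Nat.add_sub_cancel, nsmul_eq_mul,
          ← Finset.sum_div, ← Finset.sum_mul, ← Finset.mul_sum]
    _ ≤ _ := by
        have h6 := sum_sigma_le T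
        have h7 := harm_le T
        have h8 : 8 * (∑ m ∈ Finset.Icc 1 T, (∑ h ∈ m.divisors, (1 : ℝ) / h) * (1 / m)) ≤
            16 * (1 + Real.log T) := by linarith
        have h9 : 8 * (∑ m ∈ Finset.Icc 1 T, (∑ h ∈ m.divisors, (1 : ℝ) / h) * (1 / m)) * Y /
            (Real.log w) ^ 2 ≤ 16 * (1 + Real.log T) * Y / (Real.log w) ^ 2 := by
          apply div_le_div_of_nonneg_right _ (by positivity)
          exact mul_le_mul_of_nonneg_right h8 (Nat.cast_nonneg Y)
        linarith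

/-- the modulus -/
def MM (T Y : ℕ) : ℕ :=
  (∏ q ∈ (Finset.Icc 1 (Nat.sqrt Y)).filter Nat.Prime, q ^ (Nat.log q Y)) *
    primorial (Y / T) * ∏ q ∈ EE T Y, q

theorem MM_pos (T Y : ℕ) : 0 < MM T Y := by
  unfold MM
  apply Nat.mul_pos
  · apply Nat.mul_pos
    · apply Finset.prod_pos
      intro q hq
      rw [Finset.mem_filter] at hq
      exact pow_pos hq.2.pos _
    · exact primorial_pos _
  · apply Finset.prod_pos
    intro q hq
    unfold EE at hq
    rw [Finset.mem_filter] at hq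
    exact hq.2.1.pos

theorem dvd_MM (T Y p : ℕ) (hT : 1 ≤ T) (hY : 4 ≤ Y) (hp : p.Prime) (hp2 : p ≠ 2) (hpY : p ≤ Y) :
    p - 1 ∣ MM T Y := by
  have hp3 : 3 ≤ p := by
    have := hp.two_le
    omega
  have hM0 : MM T Y ≠ 0 := (MM_pos T Y).ne'
  have hp10 : p - 1 ≠ 0 := by omega
  have heven : 2 ∣ p - 1 := by
    have hodd := hp.odd_of_ne_two hp2
    obtain ⟨k, hk⟩ := hodd
    exact ⟨k, by omega⟩
  rw [← Nat.factorization_prime_le_iff_dvd hp10 hM0]
  intro q hq
  by_cases hqs : q ≤ Nat.sqrt Y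
  · have h1 : (p - 1).factorization q ≤ Nat.log q Y := by
      have h2 : q ^ ((p - 1).factorization q) ≤ Y :=
        (Nat.le_of_dvd (by omega) (Nat.ordProj_dvd (p - 1) q)).trans (by omega)
      exact Nat.le_log_of_pow_le hq.one_lt h2
    refine h1.trans ?_
    rw [← hq.pow_dvd_iff_le_factorization hM0]
    unfold MM
    apply Dvd.dvd.mul_right
    apply Dvd.dvd.mul_right
    apply Finset.dvd_prod_of_mem (fun q => q ^ (Nat.log q Y))
    rw [Finset.mem_filter, Finset.mem_Icc]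
    exact ⟨⟨hq.one_lt.le, hqs⟩, hq⟩
  · by_cases hqd : q ∣ p - 1
    · have hqY : Y < q * q := Nat.sqrt_lt.mp (not_le.mp hqs)
      have h1 : (p - 1).factorization q ≤ 1 := by
        by_contra hcon
        push Not at hcon
        have h2 : q ^ 2 ∣ p - 1 := (hq.pow_dvd_iff_le_factorization hp10).mpr hcon
        have h3 := Nat.le_of_dvd (by omega) h2
        rw [sq] at h3
        omega
      refine h1.trans ?_
      rw [← hq.dvd_iff_one_le_factorization hM0]
      by_cases hqT : q ≤ Y / T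
      · unfold MM
        apply Dvd.dvd.mul_right
        apply Dvd.dvd.mul_left
        rwa [hq.dvd_primorial_iff]
      · unfold MM
        apply Dvd.dvd.mul_left
        apply Finset.dvd_prod_of_mem (fun q => q)
        obtain ⟨m, hm⟩ := hqd
        have hm0 : 0 < m := by
          rcases Nat.eq_zero_or_pos m with h | h
          · subst h; omega
          · exact h
        have hqodd : ¬ 2 ∣ q := by
          intro h2
          have h3 : q = 2 := ((Nat.prime_dvd_prime_iff_eq Nat.prime_two hq).mp h2).symm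
          subst h3
          omega
        have hm2 : 2 ∣ m := by
          rw [hm] at heven
          rcases (Nat.prime_two.dvd_mul).mp heven with h | h
          · exact absurd h hqodd
          · exact h
        have hmT : m ≤ T := by
          by_contra hcon
          push Not at hcon hqT
          have h4 : Y < q * T := by
            have := (Nat.div_lt_iff_lt_mul (by omega)).mp hqT
            exact this
          have h5 : q * T ≤ q * m := Nat.mul_le_mul_left q hcon.le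
          omega
        unfold EE
        rw [Finset.mem_filter, Finset.mem_Icc]
        refine ⟨⟨hq.one_lt.le, ?_⟩, hq, m, ?_, hm2, ?_, ?_⟩
        · have : q ≤ q * m := Nat.le_mul_of_pos_right q hm0
          omega
        · rw [Finset.mem_Icc]; exact ⟨hm0, hmT⟩
        · rw [Nat.le_div_iff_mul_le hm0]
          omega
        · have : m * q + 1 = p := by
            rw [mul_comm]; omega
          rw [this]; exact hp
    · rw [Nat.factorization_eq_zero_of_not_dvd hqd]
      exact Nat.zero_le _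

theorem log_MM_le (T Y w : ℕ) (hY : 4 ≤ Y) (hw : 2 ≤ w) :
    Real.log (MM T Y) ≤ Real.sqrt Y * Real.log Y + Real.log 4 * (Y / T) +
      (16 * (1 + Real.log T) * Y / (Real.log w) ^ 2 + T * (2 * (w : ℝ) ^ 12)) * Real.log Y := by
  have hYR : (1 : ℝ) ≤ Y := by exact_mod_cast (by omega : 1 ≤ Y)
  have hlogY : 0 ≤ Real.log Y := Real.log_nonneg hYR
  have h1 : (1 : ℝ) ≤ (∏ q ∈ (Finset.Icc 1 (Nat.sqrt Y)).filter Nat.Prime, q ^ (Nat.log q Y) : ℕ) := by
    have : 0 < ∏ q ∈ (Finset.Icc 1 (Nat.sqrt Y)).filter Nat.Prime, q ^ (Nat.log q Y) := by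
      apply Finset.prod_pos
      intro q hq
      rw [Finset.mem_filter] at hq
      exact pow_pos hq.2.pos _
    exact_mod_cast this
  have h2 : (1 : ℝ) ≤ (primorial (Y / T) : ℕ) := by exact_mod_cast primorial_pos _
  have h3 : (1 : ℝ) ≤ (∏ q ∈ EE T Y, q : ℕ) := by
    have : 0 < ∏ q ∈ EE T Y, q := by
      apply Finset.prod_pos
      intro q hq
      unfold EE at hq
      rw [Finset.mem_filter] at hq
      exact hq.2.1.pos
    exact_mod_cast this
  unfold MM
  rw [Nat.cast_mul, Nat.cast_mul, Real.log_mul (by positivity) (by positivity),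
    Real.log_mul (by positivity) (by positivity)]
  have e1 : Real.log (∏ q ∈ (Finset.Icc 1 (Nat.sqrt Y)).filter Nat.Prime, q ^ (Nat.log q Y) : ℕ) ≤
      Real.sqrt Y * Real.log Y := by
    rw [Nat.cast_prod, Real.log_prod]
    · calc ∑ q ∈ (Finset.Icc 1 (Nat.sqrt Y)).filter Nat.Prime, Real.log ((q ^ (Nat.log q Y) : ℕ) : ℝ)
          ≤ ∑ q ∈ (Finset.Icc 1 (Nat.sqrt Y)).filter Nat.Prime, Real.log Y := by
            apply Finset.sum_le_sum
            intro q hq
            rw [Finset.mem_filter] at hq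
            apply Real.log_le_log
            · exact_mod_cast pow_pos hq.2.pos _
            · exact_mod_cast Nat.pow_log_le_self q (by omega)
        _ = (((Finset.Icc 1 (Nat.sqrt Y)).filter Nat.Prime).card : ℝ) * Real.log Y := by
            rw [Finset.sum_const, nsmul_eq_mul]
        _ ≤ Real.sqrt Y * Real.log Y := by
            gcongr
            have h5 : ((Finset.Icc 1 (Nat.sqrt Y)).filter Nat.Prime).card ≤ Nat.sqrt Y := by
              refine (Finset.card_filter_le _ _).trans ?_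
              rw [Nat.card_Icc, Nat.add_sub_cancel]
            have h6 : ((Nat.sqrt Y : ℕ) : ℝ) ≤ Real.sqrt Y := Real.nat_sqrt_le_real_sqrt
            exact (by exact_mod_cast h5 : (((Finset.Icc 1 (Nat.sqrt Y)).filter Nat.Prime).card : ℝ) ≤
              (Nat.sqrt Y : ℕ)).trans h6
    · intro q hq
      rw [Finset.mem_filter] at hq
      have := pow_pos hq.2.pos (Nat.log q Y)
      positivity
  have e2 : Real.log (primorial (Y / T) : ℕ) ≤ Real.log 4 * (Y / T) := by
    have h5 : (primorial (Y / T) : ℝ) ≤ (4 : ℝ) ^ (Y / T) := by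
      exact_mod_cast primorial_le_four_pow (Y / T)
    calc Real.log (primorial (Y / T) : ℕ) ≤ Real.log ((4 : ℝ) ^ (Y / T)) := by
          apply Real.log_le_log (by linarith) h5
      _ = ((Y / T : ℕ) : ℝ) * Real.log 4 := by rw [Real.log_pow]
      _ ≤ (Y / T : ℝ) * Real.log 4 := by
          have : 0 ≤ Real.log 4 := Real.log_nonneg (by norm_num)
          gcongr
          exact Nat.cast_div_le
      _ = _ := by ring
  have e3 : Real.log (∏ q ∈ EE T Y, q : ℕ) ≤
      (16 * (1 + Real.log T) * Y / (Real.log w) ^ 2 + T * (2 * (w : ℝ) ^ 12)) * Real.log Y := by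
    rw [Nat.cast_prod, Real.log_prod]
    · calc ∑ q ∈ EE T Y, Real.log (q : ℝ) ≤ ∑ q ∈ EE T Y, Real.log Y := by
            apply Finset.sum_le_sum
            intro q hq
            unfold EE at hq
            rw [Finset.mem_filter, Finset.mem_Icc] at hq
            apply Real.log_le_log
            · exact_mod_cast hq.2.1.pos
            · exact_mod_cast hq.1.2
        _ = ((EE T Y).card : ℝ) * Real.log Y := by
            rw [Finset.sum_const, nsmul_eq_mul]
        _ ≤ _ := mul_le_mul_of_nonneg_right (card_EE_le T Y w hw) hlogY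
    · intro q hq
      unfold EE at hq
      rw [Finset.mem_filter] at hq
      exact_mod_cast hq.2.1.ne_zero
  linarith

/-- the asymptotic size of the modulus -/
theorem log_MM_asymp : ∃ C₀ : ℝ, 0 < C₀ ∧ ∃ Y₀ : ℕ, ∀ Y : ℕ, Y₀ ≤ Y →
    Real.log (MM (⌊Real.log Y⌋₊ + 1) Y) ≤
      C₀ * (Y * (Real.log (Real.log Y) / Real.log Y)) := by
  have t1 : Tendsto (fun x : ℝ => Real.log x) atTop atTop := Real.tendsto_log_atTop
  have t2 : Tendsto (fun x : ℝ => Real.log (Real.log x)) atTop atTop := t1.comp t1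
  have f1 : ∀ᶠ x : ℝ in atTop, (Real.log x) ^ (2 : ℝ) ≤ x ^ (1 / 2 : ℝ) := by
    have := (isLittleO_log_rpow_rpow_atTop 2 (show (0 : ℝ) < 1 / 2 by norm_num)).bound one_pos
    filter_upwards [this, eventually_ge_atTop (1 : ℝ)] with x hx hx1
    rw [one_mul, Real.norm_of_nonneg (Real.rpow_nonneg (Real.log_nonneg hx1) _),
      Real.norm_of_nonneg (Real.rpow_nonneg (by linarith) _)] at hx
    exact hx
  have f2 : ∀ᶠ x : ℝ in atTop, (Real.log x) ^ (3 : ℝ) ≤ (1 / 4) * x ^ (1 / 4 : ℝ) := by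
    have := (isLittleO_log_rpow_rpow_atTop 3 (show (0 : ℝ) < 1 / 4 by norm_num)).bound
      (show (0 : ℝ) < 1 / 4 by norm_num)
    filter_upwards [this, eventually_ge_atTop (1 : ℝ)] with x hx hx1
    rw [Real.norm_of_nonneg (Real.rpow_nonneg (Real.log_nonneg hx1) _),
      Real.norm_of_nonneg (Real.rpow_nonneg (by linarith) _)] at hx
    exact hx
  have f3 : ∀ᶠ x : ℝ in atTop, 1 ≤ Real.log (Real.log x) := t2.eventually_ge_atTop 1
  have f4 : ∀ᶠ x : ℝ in atTop, 1 ≤ Real.log x := t1.eventually_ge_atTop 1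
  have f5 : ∀ᶠ x : ℝ in atTop, 4 ≤ x ^ (1 / 16 : ℝ) :=
    (tendsto_rpow_atTop (show (0 : ℝ) < 1 / 16 by norm_num)).eventually_ge_atTop 4
  have fall := f1.and (f2.and (f3.and (f4.and (f5.and (eventually_ge_atTop (4 : ℝ))))))
  have fN := tendsto_natCast_atTop_atTop (R := ℝ) |>.eventually fall
  rw [eventually_atTop] at fN
  obtain ⟨Y₀, hY₀⟩ := fN
  refine ⟨60000, by norm_num, Y₀, ?_⟩
  intro Y hY
  obtain ⟨g1, g2, g3, g4, g5, g6⟩ := hY₀ Y hY
  set x : ℝ := (Y : ℝ) with hx
  set L := Real.log x with hL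
  have hYn : 4 ≤ Y := by
    have h : ((4 : ℕ) : ℝ) ≤ ((Y : ℕ) : ℝ) := by
      push_cast
      exact g6
    exact Nat.cast_le.mp h
  set w := ⌊x ^ (1 / 16 : ℝ)⌋₊ with hwdef
  have hw : 2 ≤ w := by
    rw [hwdef]
    apply Nat.le_floor
    push_cast
    linarith
  set T := ⌊L⌋₊ + 1 with hTdef
  have hT1 : 1 ≤ T := by omega
  have hTL : L ≤ T := by
    rw [hTdef]; push_cast
    exact (Nat.lt_floor_add_one L).le
  have hTL2 : (T : ℝ) ≤ 2 * L := by
    rw [hTdef]; push_cast
    have := Nat.floor_le (by linarith : 0 ≤ L)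
    linarith
  have hxpos : 0 < x := by linarith
  -- w bounds
  have hwle : (w : ℝ) ≤ x ^ (1 / 16 : ℝ) := Nat.floor_le (by positivity)
  have hw12 : (w : ℝ) ^ 12 ≤ x ^ (3 / 4 : ℝ) := by
    calc (w : ℝ) ^ 12 ≤ (x ^ (1 / 16 : ℝ)) ^ 12 := by gcongr
      _ = x ^ (3 / 4 : ℝ) := by
          rw [← Real.rpow_natCast, ← Real.rpow_mul hxpos.le]
          norm_num
  have hlogw : L / 32 ≤ Real.log w := by
    have h1 : x ^ (1 / 32 : ℝ) ≤ w := by
      have h2 : x ^ (1 / 16 : ℝ) - 1 ≤ w := by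
        have := Nat.lt_floor_add_one (x ^ (1 / 16 : ℝ))
        rw [← hwdef] at this
        linarith
      have h3 : x ^ (1 / 16 : ℝ) = (x ^ (1 / 32 : ℝ)) ^ 2 := by
        rw [← Real.rpow_natCast, ← Real.rpow_mul hxpos.le]
        norm_num
      have h4 : 2 ≤ x ^ (1 / 32 : ℝ) := by
        have h5 : (0 : ℝ) ≤ x ^ (1 / 32 : ℝ) := by positivity
        rw [h3] at g5
        nlinarith
      rw [h3] at h2
      nlinarith
    have h6 : Real.log (x ^ (1 / 32 : ℝ)) ≤ Real.log w := Real.log_le_log (by positivity) h1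
    rw [Real.log_rpow hxpos] at h6
    linarith
  have hmain := log_MM_le T Y w hYn hw
  refine hmain.trans ?_
  rw [← hx, ← hL]
  set LL := Real.log L with hLL
  have hLpos : 0 < L := by linarith
  -- term 1
  have a1 : Real.sqrt x * L ≤ x * (LL / L) := by
    have h1 : L ^ 2 ≤ Real.sqrt x := by
      rw [Real.sqrt_eq_rpow]
      have : L ^ (2 : ℝ) = L ^ 2 := by
        rw [← Real.rpow_natCast]; norm_num
      rw [← this]; exact g1
    have h2 : Real.sqrt x * Real.sqrt x = x := Real.mul_self_sqrt hxpos.le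
    have h3 : Real.sqrt x * L = Real.sqrt x * L ^ 2 / L := by field_simp
    rw [h3, ← mul_div_assoc]
    apply div_le_div_of_nonneg_right _ hLpos.le
    calc Real.sqrt x * L ^ 2 ≤ Real.sqrt x * Real.sqrt x := by gcongr
      _ = x * 1 := by rw [h2, mul_one]
      _ ≤ x * LL := by gcongr
  have a2 : Real.log 4 * (x / T) ≤ 2 * (x * (LL / L)) := by
    have h4 : Real.log 4 ≤ 2 := by
      have : Real.log 4 = 2 * Real.log 2 := by
        rw [show (4 : ℝ) = 2 ^ 2 by norm_num, Real.log_pow]; norm_num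
      rw [this]
      have := Real.log_two_lt_d9
      linarith
    have h5 : x / T ≤ x * (LL / L) := by
      calc x / T ≤ x / L := by gcongr
        _ = x * (1 / L) := by ring
        _ ≤ x * (LL / L) := by gcongr
    have h6 : 0 ≤ x / T := by positivity
    nlinarith
  have a3 : 16 * (1 + Real.log T) * x / (Real.log w) ^ 2 * L ≤ 50000 * (x * (LL / L)) := by
    have h7 : 1 + Real.log T ≤ 3 * LL := by
      have h8 : Real.log T ≤ Real.log (2 * L) := Real.log_le_log (by positivity) hTL2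
      rw [Real.log_mul (by norm_num) hLpos.ne', ← hLL] at h8
      have := Real.log_two_lt_d9
      linarith
    have h9 : 0 ≤ 1 + Real.log T := by
      have : 0 ≤ Real.log T := Real.log_natCast_nonneg T
      linarith
    calc 16 * (1 + Real.log T) * x / (Real.log w) ^ 2 * L ≤ 16 * (3 * LL) * x / (L / 32) ^ 2 * L := by
          gcongr
      _ = 49152 * (x * (LL / L)) := by field_simp; ring
      _ ≤ _ := by
          have : 0 ≤ x * (LL / L) := by positivity
          linarith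
  have a4 : T * (2 * (w : ℝ) ^ 12) * L ≤ x * (LL / L) := by
    have h10 : L ^ 3 ≤ (1 / 4) * x ^ (1 / 4 : ℝ) := by
      have : L ^ (3 : ℝ) = L ^ 3 := by
        rw [← Real.rpow_natCast]; norm_num
      rw [← this]; exact g2
    have h11 : x ^ (3 / 4 : ℝ) * x ^ (1 / 4 : ℝ) = x := by
      rw [← Real.rpow_add hxpos]; norm_num
    calc T * (2 * (w : ℝ) ^ 12) * L ≤ (2 * L) * (2 * x ^ (3 / 4 : ℝ)) * L := by gcongr
      _ = 4 * x ^ (3 / 4 : ℝ) * L ^ 3 / L := by field_simp; ring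
      _ ≤ 4 * x ^ (3 / 4 : ℝ) * ((1 / 4) * x ^ (1 / 4 : ℝ)) / L := by gcongr
      _ = x * 1 / L := by
          rw [show 4 * x ^ (3 / 4 : ℝ) * ((1 / 4) * x ^ (1 / 4 : ℝ)) = x ^ (3 / 4 : ℝ) * x ^ (1 / 4 : ℝ) by ring,
            h11, mul_one]
      _ ≤ x * LL / L := by gcongr
      _ = _ := by ring
  have hpos : 0 ≤ x * (LL / L) := by positivity
  have expand : (16 * (1 + Real.log T) * x / (Real.log w) ^ 2 + T * (2 * (w : ℝ) ^ 12)) * L =
      16 * (1 + Real.log T) * x / (Real.log w) ^ 2 * L + T * (2 * (w : ℝ) ^ 12) * L := by ring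
  rw [expand]
  linarith

end

end Pool.Agent.H6
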